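import Pool.Agent.Lib.MP_73239e_mp.Defect

set_option autoImplicit false

open Polynomial

namespace Pool.Agent.Lib.MP_73239e_mp

theorem exists_unimodular {x : ℝ} (hx : x ^ 2 ≤ 4) :
    ∃ ζ : ℂ, ζ ^ 2 - (x : ℂ) * ζ + 1 = 0 ∧ ‖ζ‖ = 1 := by
  have h0 : 0 ≤ 1 - x ^ 2 / 4 := by linarith
  have hs := Real.sq_sqrt h0
  set s := Real.sqrt (1 - x ^ 2 / 4)
  refine ⟨⟨x / 2, s⟩, ?_, ?_⟩
  · apply Complex.ext
    · simp [sq]; nlinarith
    · simp [sq]; ring
  · rw [← sq_eq_sq₀ (norm_nonneg _) zero_le_one, Complex.sq_norm, Complex.normSq_apply]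
    simp only
    nlinarith

theorem sol_periodic (c : ℕ → ℂ) (q : ℕ) (hc : ∀ k, c (k + q) = c k) (a b ζ : ℂ)
    (h0 : sol c a b q = ζ * a) (h1 : sol c a b (q + 1) = ζ * b) (k : ℕ) :
    sol c a b (k + q) = ζ * sol c a b k ∧ sol c a b (k + 1 + q) = ζ * sol c a b (k + 1) := by
  induction k with
  | zero => simpa [add_comm] using ⟨h0, h1⟩
  | succ k ih =>
    refine ⟨ih.2, ?_⟩
    have e : k + 1 + 1 + q = (k + q) + 2 := by ring
    have e' : k + q + 1 = k + 1 + q := by ring
    rw [e, sol_two, sol_two, e', ih.1, ih.2, hc]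
    ring

/-- A long periodic stretch of the potential puts spectrum near every point of the bands. -/
theorem near_Spec_of_band {V : ℤ → ℝ} {K₀ : ℝ} (hV : ∀ n, |V n| ≤ K₀) {H : L2 →L[ℂ] L2}
    (hH : IsSchr V H) {W : ℤ → ℝ} {q : ℕ} (hq : 1 ≤ q) (hW : ∀ n, W (n + q) = W n)
    {N : ℕ} {m0 s : ℤ} (h : ∀ n, m0 ≤ n → n < m0 + (N * q : ℕ) → V n = W (n - s))
    {E δ : ℝ} (hx : ((xP (fun n => W n) q).eval E) ^ 2 ≤ 4) (hδ : 0 < δ)
    (hN : 16 ≤ N * δ ^ 2) : ∃ E' ∈ Spec H, |E' - E| ≤ δ := by
  have hN1 : 1 ≤ N := by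
    by_contra hn
    have : N = 0 := by omega
    rw [this] at hN
    norm_num at hN
  obtain ⟨ζ, hζ, hζ1⟩ := exists_unimodular hx
  set c : ℕ → ℂ := fun k => ((E - W (m0 - s + k) : ℝ) : ℂ) with hc
  have hd : disc c q = (((xP (fun n => W n) q).eval E : ℝ) : ℂ) := by
    rw [eval_xP, ← disc_shift_int hW E (m0 - s)]
    exact (map_disc Complex.ofRealHom _ q).symm
  obtain ⟨a, b, hab, h0, h1⟩ := bloch c q ζ (by rw [hd]; exact hζ)
  have hper := sol_periodic c q (by
    intro k
    simp only [hc]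
    rw [← hW (m0 - s + k)]
    push_cast
    congr 3
    ring) a b ζ h0 h1
  set u := sol c a b with hu
  have hnorm : ∀ i k : ℕ, ‖u (k + i * q)‖ = ‖u k‖ := by
    intro i k
    induction i with
    | zero => simp
    | succ i ih =>
      have e : k + (i + 1) * q = (k + i * q) + q := by ring
      rw [e, (hper _).1, norm_mul, hζ1, one_mul, ih]
  set M := N * q with hM
  have hM1 : 1 ≤ M := Nat.mul_pos hN1 hq
  set f : ℤ → ℂ := fun n => if m0 ≤ n ∧ n < m0 + M then u ((n - m0).toNat + 1) else 0 with hf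
  have hfs : Summable fun n => ‖f n‖ ^ 2 := by
    apply summable_of_ne_finset_zero (s := Finset.Ico m0 (m0 + M))
    intro n hn
    rw [Finset.mem_Ico] at hn
    simp [hf, hn]
  set ψ : L2 := ⟨f, memL2_of_summable hfs⟩ with hψ
  have ψin : ∀ k : ℕ, k < M → ψ (m0 + k) = u (k + 1) := by
    intro k hk
    change f (m0 + k) = _
    have : m0 ≤ m0 + k ∧ m0 + k < m0 + M := by omega
    simp only [hf, if_pos this]
    congr 2
    omega
  have ψout : ∀ n : ℤ, n < m0 ∨ m0 + M ≤ n → ψ n = 0 := by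
    intro n hn
    change f n = _
    have : ¬ (m0 ≤ n ∧ n < m0 + M) := by omega
    simp only [hf, if_neg this]
  set C₀ := max ‖a‖ ‖b‖ with hC
  have hC0 : 0 < C₀ := by
    rcases hab with h | h
    · exact lt_max_of_lt_left (norm_pos_iff.mpr h)
    · exact lt_max_of_lt_right (norm_pos_iff.mpr h)
  have ua : ‖u 0‖ ≤ C₀ := le_max_left _ _
  have ub : ‖u 1‖ ≤ C₀ := le_max_right _ _
  have uM : ‖u M‖ ≤ C₀ := by have := hnorm N 0; rw [zero_add] at this; rw [this]; exact ua
  have uM1 : ‖u (M + 1)‖ ≤ C₀ := by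
    have := hnorm N 1; rw [add_comm] at this; rw [this]; exact ub
  have hr : H ψ - (E : ℂ) • ψ = lp.single 2 (m0 - 1) (u 1) - lp.single 2 m0 (u 0)
      - lp.single 2 (m0 + M - 1) (u (M + 1)) + lp.single 2 (m0 + M) (u M) := by
    apply lp.ext
    funext n
    have e0 : (H ψ - (E : ℂ) • ψ) n = H ψ n - (E : ℂ) * ψ n := rfl
    rw [e0, hH ψ n]
    simp only [lp.coeFn_add, lp.coeFn_sub, Pi.add_apply, Pi.sub_apply, lp.single_apply,
      Pi.single_apply]
    rcases lt_trichotomy n (m0 - 1) with c1 | c1 | c1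
    · rw [ψout (n + 1) (by omega), ψout (n - 1) (by omega), ψout n (by omega),
        if_neg (by omega), if_neg (by omega), if_neg (by omega), if_neg (by omega)]
      simp
    · have := ψin 0 (by omega)
      simp only [Nat.cast_zero, add_zero, zero_add] at this
      rw [show n + 1 = m0 by omega, this, ψout (n - 1) (by omega), ψout n (by omega),
        if_pos c1, if_neg (by omega), if_neg (by omega), if_neg (by omega)]
      simp
    rcases lt_trichotomy n (m0 + M) with c2 | c2 | c2
    · obtain ⟨k, hk⟩ := Int.eq_ofNat_of_zero_le (show 0 ≤ n - m0 by omega)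
      have hn : n = m0 + k := by omega
      have hkM : k < M := by omega
      have r0 : u (k + 2) = c k * u (k + 1) - u k := sol_two c a b k
      have hck : c k = (E : ℂ) - ((V n : ℝ) : ℂ) := by
        rw [h n (by omega) (by omega), hn]
        simp only [hc]
        push_cast
        congr 3
        ring
      have v0 : ψ n = u (k + 1) := by rw [hn]; exact ψin k hkM
      have v1 : ψ (n + 1) = u (k + 2) - (if n = m0 + M - 1 then u (M + 1) else 0) := by
        split_ifs with c3
        · rw [ψout (n + 1) (by omega), show M + 1 = k + 2 by omega]; simp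
        · have := ψin (k + 1) (by omega)
          rw [sub_zero, ← this, hn]
          push_cast
          rw [add_assoc]
      have v2 : ψ (n - 1) = u k - (if n = m0 then u 0 else 0) := by
        split_ifs with c3
        · rw [ψout (n - 1) (by omega), show k = 0 by omega]; simp
        · obtain ⟨j, rfl⟩ : ∃ j, k = j + 1 := ⟨k - 1, by omega⟩
          have := ψin j (by omega)
          rw [sub_zero, ← this, show n - 1 = m0 + j by omega]
      rw [v0, v1, v2, r0, hck, if_neg (show ¬ n = m0 - 1 by omega),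
        if_neg (show ¬ n = m0 + M by omega)]
      ring
    · obtain ⟨j, hj⟩ : ∃ j, M = j + 1 := ⟨M - 1, by omega⟩
      have := ψin j (by omega)
      rw [show n - 1 = m0 + j by omega, this, ψout (n + 1) (by omega), ψout n (by omega),
        if_neg (by omega), if_neg (by omega), if_neg (by omega), if_pos c2, ← hj]
      simp
    · rw [ψout (n + 1) (by omega), ψout (n - 1) (by omega), ψout n (by omega),
        if_neg (by omega), if_neg (by omega), if_neg (by omega), if_neg (by omega)]
      simp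
  have hrn : ‖H ψ - (E : ℂ) • ψ‖ ≤ 4 * C₀ := by
    rw [hr]
    refine le_trans (norm_add_le _ _) ?_
    refine le_trans (add_le_add (norm_sub_le _ _) le_rfl) ?_
    refine le_trans (add_le_add (add_le_add (norm_sub_le _ _) le_rfl) le_rfl) ?_
    simp only [lp.norm_single (show (0 : ENNReal) < 2 by norm_num)]
    linarith
  have hlow : N * C₀ ^ 2 ≤ ‖ψ‖ ^ 2 := by
    obtain ⟨t, ht1, ht2, ht⟩ : ∃ t : ℕ, 1 ≤ t ∧ t ≤ q ∧ ‖u t‖ = C₀ := by
      rcases le_total ‖a‖ ‖b‖ with hle | hle
      · exact ⟨1, le_rfl, hq, (max_eq_right hle).symm⟩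
      · refine ⟨q, hq, le_rfl, ?_⟩
        have := hnorm 1 0
        simp only [zero_add, one_mul] at this
        rw [this, hC, max_eq_left hle]
        rfl
    have hinj : Function.Injective fun i : ℕ => m0 + ((t - 1 + i * q : ℕ) : ℤ) := by
      intro i j hij
      simp only [add_right_inj, Nat.cast_inj] at hij
      exact Nat.eq_of_mul_eq_mul_right hq hij
    have := sum_le_hasSum ((Finset.range N).map ⟨_, hinj⟩) (fun _ _ => by positivity)
      (hasSum_sq ψ)
    rw [Finset.sum_map] at this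
    refine le_trans (le_of_eq ?_) this
    rw [Finset.sum_congr rfl (g := fun _ => C₀ ^ 2)]
    · simp
    · intro i hi
      rw [Finset.mem_range] at hi
      have hlt : t - 1 + i * q < M := by
        have : (i + 1) * q ≤ N * q := Nat.mul_le_mul_right q hi
        rw [hM]
        have e : (i + 1) * q = i * q + q := by ring
        omega
      simp only [Function.Embedding.coeFn_mk]
      rw [ψin _ hlt, show t - 1 + i * q + 1 = t + i * q by omega, hnorm, ht]
  have hNpos : (0 : ℝ) < N := by exact_mod_cast hN1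
  have hψ0 : ψ ≠ 0 := by
    intro h0
    rw [h0, norm_zero] at hlow
    have : 0 < N * C₀ ^ 2 := by positivity
    linarith
  apply exists_mem_Spec_of_approx (hH.isSelfAdjoint hV) hψ0
  refine le_trans hrn ?_
  apply le_of_sq_le_sq _ (by positivity)
  have e1 : (4 * C₀) ^ 2 = 16 * C₀ ^ 2 := by ring
  have e2 : 16 * C₀ ^ 2 ≤ (N * δ ^ 2) * C₀ ^ 2 := by gcongr
  have e3 : δ ^ 2 * (N * C₀ ^ 2) ≤ δ ^ 2 * ‖ψ‖ ^ 2 := by gcongr
  rw [e1, mul_pow]
  linarith

end Pool.Agent.Lib.MP_73239e_mp
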