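import Pool.Agent.Lib.MP_73239e_mp.Sturm

set_option autoImplicit false

open Polynomial

namespace Pool.Agent.Lib.MP_73239e_mp

/-- The set `A` has at least `k` pieces at scale `ε`: a colouring that is constant along
`ε`-chains takes at least `k` values on `A`. -/
def Sep (A : Set ℝ) (ε : ℝ) (k : ℕ) : Prop :=
  ∃ c : ℝ → ℕ, (∀ a ∈ A, ∀ a' ∈ A, |a - a'| ≤ ε → c a = c a') ∧
    ∃ T : Finset ℕ, k ≤ T.card ∧ ∀ t ∈ T, ∃ a ∈ A, c a = t

theorem Sep.mono {A : Set ℝ} {ε ε' : ℝ} {k k' : ℕ} (h : Sep A ε k) (h1 : ε' ≤ ε) (h2 : k' ≤ k) :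
    Sep A ε' k' := by
  obtain ⟨c, hc, T, hT, hT'⟩ := h
  exact ⟨c, fun a ha a' ha' h => hc a ha a' ha' (h.trans h1), T, h2.trans hT, hT'⟩

theorem Sep.of_lipschitz {A B : Set ℝ} {g : ℝ → ℝ} {L ε : ℝ} {k : ℕ} (hL : 0 ≤ L)
    (hg : ∀ b ∈ B, ∀ b' ∈ B, |g b - g b'| ≤ L * |b - b'|) (hm : ∀ b ∈ B, g b ∈ A)
    (hs : ∀ a ∈ A, ∃ b ∈ B, g b = a) (h : Sep A (L * ε) k) : Sep B ε k := by
  obtain ⟨c, hc, T, hT, hT'⟩ := h
  refine ⟨fun b => c (g b), fun b hb b' hb' h => hc _ (hm b hb) _ (hm b' hb') ?_, T, hT, ?_⟩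
  · exact le_trans (hg b hb b' hb') (by gcongr)
  · intro t ht
    obtain ⟨a, ha, rfl⟩ := hT' t ht
    obtain ⟨b, hb, rfl⟩ := hs a ha
    exact ⟨b, hb, rfl⟩

theorem level_ne_zero {x : ℝ[X]} (hd : 1 ≤ x.natDegree) (y : ℝ) :
    x ^ 2 - C y ≠ 0 ∧ (x ^ 2 - C y).natDegree ≤ 2 * x.natDegree := by
  have h : (x ^ 2 - C y).natDegree = 2 * x.natDegree := by
    rw [natDegree_sub_C, natDegree_pow]
  refine ⟨?_, h.le⟩
  intro h0
  rw [h0, natDegree_zero] at h
  omega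

theorem sep_lower (x : ℝ[X]) {q : ℕ} (hq : 1 ≤ q) (hd : x.natDegree = q)
    (hcard : x.roots.toFinset.card = q)
    (hcrit : ∀ E, (x.eval E) ^ 2 ≤ 4 → (derivative x).eval E ≠ 0) (y : ℝ) :
    ∃ ε > 0, ∀ A : Set ℝ,
      (∀ E ∈ A, ∃ E', ((x.eval E') ^ 2 ≤ 4 ∨ (x.eval E') ^ 2 = y) ∧ |E - E'| ≤ ε) →
      (∀ E, (x.eval E) ^ 2 ≤ 4 → ∃ E' ∈ A, |E' - E| ≤ ε) → Sep A ε q := by
  classical
  have hxc : Continuous fun E => x.eval E := x.continuous
  set S : Set ℝ := {E | (x.eval E) ^ 2 ≤ 4 ∨ (x.eval E) ^ 2 = y} with hS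
  have hSc : IsClosed S :=
    (isClosed_le (hxc.pow 2) continuous_const).union (isClosed_eq (hxc.pow 2) continuous_const)
  set Z := x.roots.toFinset with hZ
  have hZ0 : ∀ E ∈ Z, x.eval E = 0 := fun E hE => (mem_roots'.mp (Multiset.mem_toFinset.mp hE)).2
  have hZS : ∀ E ∈ Z, E ∈ S := fun E hE => Or.inl (by rw [hZ0 E hE]; norm_num)
  have hSne : S.Nonempty := by
    obtain ⟨E, hE⟩ := Finset.card_pos.mp (show 0 < Z.card by omega)
    exact ⟨E, hZS E hE⟩
  have cut : ∀ E E' : ℝ, ∃ t, E ∈ Z → E' ∈ Z → E < E' → E < t ∧ t < E' ∧ t ∉ S := by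
    intro E E'
    by_cases h : E ∈ Z ∧ E' ∈ Z ∧ E < E'
    swap
    · exact ⟨0, fun a b c => absurd ⟨a, b, c⟩ h⟩
    obtain ⟨a, b, c⟩ := h
    obtain ⟨t0, ht0, hd0⟩ := exists_deriv_eq_zero c hxc.continuousOn
      (by simp only [hZ0 E a, hZ0 E' b])
    rw [Polynomial.deriv] at hd0
    have h4 : 4 < (x.eval t0) ^ 2 := by
      by_contra hn
      exact hcrit t0 (not_lt.mp hn) hd0
    have hO : IsOpen (Set.Ioo E E' ∩ {t | 4 < (x.eval t) ^ 2}) :=
      isOpen_Ioo.inter (isOpen_lt continuous_const (by fun_prop))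
    have hinf := infinite_of_mem_nhds t0 (hO.mem_nhds ⟨ht0, h4⟩)
    obtain ⟨t, ht, ht'⟩ := hinf.exists_notMem_finset (x ^ 2 - C y).roots.toFinset
    refine ⟨t, fun _ _ _ => ⟨ht.1.1, ht.1.2, ?_⟩⟩
    rintro (h | h)
    · exact absurd ht.2 (not_lt.mpr h)
    · apply ht'
      rw [Multiset.mem_toFinset, mem_roots (level_ne_zero (by omega) y).1]
      simp [h]
  choose t ht using cut
  set T : Finset ℝ := ((Z ×ˢ Z).filter fun z => z.1 < z.2).image fun z => t z.1 z.2 with hT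
  have hTS : ∀ s ∈ T, s ∉ S := by
    intro s hs
    obtain ⟨z, hz, rfl⟩ := Finset.mem_image.mp hs
    rw [Finset.mem_filter, Finset.mem_product] at hz
    exact (ht _ _ hz.1.1 hz.1.2 hz.2).2.2
  obtain ⟨η, hη, hηT⟩ := T.finite_toSet.isCompact.exists_forall_le'
    (f := fun s => Metric.infDist s S) (a := 0) (Metric.continuous_infDist_pt S).continuousOn
    (fun s hs => (hSc.notMem_iff_infDist_pos hSne).mp (hTS s hs))
  set c : ℝ → ℕ := fun a => (T.filter fun s => s < a).card with hc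
  have same : ∀ s ∈ S, ∀ a, |a - s| ≤ η / 2 → c a = c s := by
    intro s hs a ha
    simp only [hc]
    congr 1
    apply Finset.filter_congr
    intro u hu
    have h1 : η ≤ |u - s| := le_trans (hηT u hu) (Metric.infDist_le_dist_of_mem hs)
    rw [abs_le] at ha
    rcases le_abs'.mp h1 with h | h
    · constructor <;> intro _ <;> linarith
    · constructor <;> intro _ <;> linarith
  have mono : ∀ E ∈ Z, ∀ E' ∈ Z, E < E' → c E < c E' := by
    intro E hE E' hE' h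
    apply Finset.card_lt_card
    rw [Finset.ssubset_iff_of_subset (Finset.monotone_filter_right _ fun u _ hu => hu.trans h)]
    obtain ⟨a, b, -⟩ := ht E E' hE hE' h
    have hm : t E E' ∈ T := Finset.mem_image.mpr ⟨(E, E'), by
      rw [Finset.mem_filter, Finset.mem_product]; exact ⟨⟨hE, hE'⟩, h⟩, rfl⟩
    refine ⟨t E E', Finset.mem_filter.mpr ⟨hm, b⟩, fun hn => ?_⟩
    exact absurd (Finset.mem_filter.mp hn).2 (not_lt.mpr a.le)
  refine ⟨η / 4, by positivity, fun A h1 h2 => ⟨c, ?_, Z.image c, ?_, ?_⟩⟩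
  · intro a ha a' ha' h
    obtain ⟨s, hs, hs'⟩ := h1 a ha
    rw [same s hs a (by linarith), same s hs a' ?_]
    rw [abs_le] at *
    constructor <;> linarith
  · rw [Finset.card_image_of_injOn, hcard]
    intro E hE E' hE' h
    rcases lt_trichotomy E E' with l | l | l
    · exact absurd h (mono E hE E' hE' l).ne
    · exact l
    · exact absurd h (mono E' hE' E hE l).ne'
  · intro u hu
    obtain ⟨E, hE, rfl⟩ := Finset.mem_image.mp hu
    obtain ⟨a, ha, ha'⟩ := h2 E (by rw [hZ0 E hE]; norm_num)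
    exact ⟨a, ha, same E (hZS E hE) a (by linarith)⟩

theorem chain_const (g : ℝ → ℕ) {l r d : ℝ} (hd : 0 < d) (hlr : l ≤ r)
    (h : ∀ s ∈ Set.Icc l r, ∀ s' ∈ Set.Icc l r, |s - s'| ≤ d → g s = g s') : g r = g l := by
  have key : ∀ n : ℕ, ∀ s ∈ Set.Icc l r, s ≤ l + n * d → g s = g l := by
    intro n
    induction n with
    | zero =>
      intro s hs h0
      have : s = l := le_antisymm (by simpa using h0) hs.1
      rw [this]
    | succ n ih =>
      intro s hs h0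
      push_cast at h0
      rcases le_or_gt s (l + n * d) with c | c
      · exact ih s hs c
      · have hn : (0 : ℝ) ≤ n * d := by positivity
        have hm : l + n * d ∈ Set.Icc l r := ⟨by linarith, by linarith [hs.2]⟩
        rw [h s hs _ hm (by rw [abs_le]; constructor <;> linarith)]
        exact ih _ hm le_rfl
  obtain ⟨n, hn⟩ := exists_nat_ge ((r - l) / d)
  rw [div_le_iff₀ hd] at hn
  exact key n r ⟨hlr, le_rfl⟩ (by linarith)

theorem exists_band_edge (x : ℝ[X]) (hd : 1 ≤ x.natDegree) {E : ℝ} (hE : (x.eval E) ^ 2 ≤ 4) :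
    ∃ r, E ≤ r ∧ (x.eval r) ^ 2 = 4 ∧ ∀ s ∈ Set.Icc E r, (x.eval s) ^ 2 ≤ 4 := by
  have hxc : Continuous fun E => (x.eval E) ^ 2 := x.continuous.pow 2
  set T : Set ℝ := Set.Ici E ∩ {t | 4 ≤ (x.eval t) ^ 2} with hT
  have hTc : IsClosed T := isClosed_Ici.inter (isClosed_le continuous_const hxc)
  have hTne : T.Nonempty := by
    have h1 := Polynomial.abs_tendsto_atTop x (natDegree_pos_iff_degree_pos.mp hd)
    obtain ⟨t, ht1, ht2⟩ := ((h1.eventually_ge_atTop 2).and (Filter.eventually_ge_atTop E)).exists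
    refine ⟨t, ht2, ?_⟩
    have : (2 : ℝ) ^ 2 ≤ |x.eval t| ^ 2 := by gcongr
    rw [sq_abs] at this
    change (4 : ℝ) ≤ _
    linarith
  have hTb : BddBelow T := ⟨E, fun t ht => ht.1⟩
  have hr := hTc.csInf_mem hTne hTb
  have hlt : ∀ s, E ≤ s → s < sInf T → (x.eval s) ^ 2 < 4 := by
    intro s h1 h2
    by_contra hn
    exact absurd (csInf_le hTb (show s ∈ T from ⟨h1, not_lt.mp hn⟩)) (not_le.mpr h2)
  have heq : (x.eval (sInf T)) ^ 2 = 4 := by
    obtain ⟨s, hs, hs'⟩ := intermediate_value_Icc hr.1 hxc.continuousOn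
      (show (4 : ℝ) ∈ Set.Icc _ _ from ⟨hE, hr.2⟩)
    rcases lt_or_eq_of_le hs.2 with h | h
    · have := hlt s hs.1 h
      simp only at hs'
      linarith
    · rw [← h]; exact hs'
  refine ⟨sInf T, hr.1, heq, fun s hs => ?_⟩
  rcases lt_or_eq_of_le hs.2 with h | h
  · exact (hlt s hs.1 h).le
  · rw [h, heq]

theorem sep_upper (x : ℝ[X]) {q : ℕ} (hq : 1 ≤ q) (hd : x.natDegree = q) (y : ℝ) {ε : ℝ}
    (hε : 0 < ε) (B : Set ℝ)
    (h1 : ∀ E ∈ B, ∃ E', ((x.eval E') ^ 2 ≤ 4 ∨ (x.eval E') ^ 2 = y) ∧ |E - E'| ≤ ε / 4)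
    (h2 : ∀ E, (x.eval E) ^ 2 ≤ 4 → ∃ E' ∈ B, |E' - E| ≤ ε / 4) : ¬ Sep B ε (4 * q + 1) := by
  classical
  rintro ⟨c, hc, T, hT, hT'⟩
  set F : Finset ℝ := (x ^ 2 - C 4).roots.toFinset ∪ (x ^ 2 - C y).roots.toFinset with hF
  have hcard : ∀ z : ℝ, (x ^ 2 - C z).roots.toFinset.card ≤ 2 * q := fun z =>
    le_trans (Multiset.toFinset_card_le _) (le_trans (card_roots' _)
      (by rw [← hd]; exact (level_ne_zero (by omega) z).2))
  have hFc : F.card ≤ 4 * q := by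
    have := Finset.card_union_le (x ^ 2 - C 4).roots.toFinset (x ^ 2 - C y).roots.toFinset
    have := hcard 4
    have := hcard y
    rw [hF]
    omega
  have hmem : ∀ z E : ℝ, (x.eval E) ^ 2 = z → E ∈ (x ^ 2 - C z).roots.toFinset := by
    intro z E h
    rw [Multiset.mem_toFinset, mem_roots (level_ne_zero (by omega) z).1]
    simp [h]
  have h2' : ∀ E, ∃ E', (x.eval E) ^ 2 ≤ 4 → E' ∈ B ∧ |E' - E| ≤ ε / 4 := by
    intro E
    by_cases h : (x.eval E) ^ 2 ≤ 4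
    · obtain ⟨E', a, b⟩ := h2 E h
      exact ⟨E', fun _ => ⟨a, b⟩⟩
    · exact ⟨0, fun h' => absurd h' h⟩
  choose π hπ using h2'
  have key : ∀ a ∈ B, ∃ f ∈ F, ∃ b ∈ B, |b - f| ≤ ε / 4 ∧ c b = c a := by
    intro a ha
    obtain ⟨E, hE | hE, hE'⟩ := h1 a ha
    · obtain ⟨r, hr1, hr2, hr3⟩ := exists_band_edge x (by omega) hE
      have hch := chain_const (fun s => c (π s)) (d := ε / 2) (by positivity) hr1 (by
        intro s hs s' hs' h
        obtain ⟨a1, a2⟩ := hπ s (hr3 s hs)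
        obtain ⟨b1, b2⟩ := hπ s' (hr3 s' hs')
        apply hc _ a1 _ b1
        rw [abs_le] at *
        constructor <;> linarith)
      obtain ⟨a1, a2⟩ := hπ r hr2.le
      obtain ⟨b1, b2⟩ := hπ E hE
      refine ⟨r, Finset.mem_union_left _ (hmem 4 r hr2), π r, a1, a2, ?_⟩
      rw [hch]
      apply hc _ b1 _ ha
      rw [abs_le] at *
      constructor <;> linarith
    · exact ⟨E, Finset.mem_union_right _ (hmem y E hE), a, ha, hE', rfl⟩
  have key2 : ∀ t, ∃ f, t ∈ T → f ∈ F ∧ ∃ b ∈ B, |b - f| ≤ ε / 4 ∧ c b = t := by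
    intro t
    by_cases ht : t ∈ T
    · obtain ⟨a, ha, rfl⟩ := hT' t ht
      obtain ⟨f, hf, h⟩ := key a ha
      exact ⟨f, fun _ => ⟨hf, h⟩⟩
    · exact ⟨0, fun h => absurd h ht⟩
  choose φ hφ using key2
  have := Finset.card_le_card_of_injOn φ (s := T) (t := F) (fun t ht => (hφ t ht).1) (by
    intro t ht t' ht' h
    obtain ⟨-, b, hb, e1, rfl⟩ := hφ t ht
    obtain ⟨-, b', hb', e2, rfl⟩ := hφ t' ht'
    apply hc _ hb _ hb'
    rw [h] at e1
    rw [abs_le] at *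
    constructor <;> linarith)
  omega

/-- The property of `β` at distortion level `L`. -/
def Good (lam : ℝ) (L : ℕ) (β : ℝ) : Prop :=
  ∀ H₁ H₂ : L2 →L[ℂ] L2, IsSchr (pot lam (5 + β)⁻¹) H₁ → IsSchr (pot lam β) H₂ →
    ∃ ε > 0, ∃ k, Sep (Spec H₁) (L * ε) k ∧ ¬ Sep (Spec H₂) ε k

theorem good_near_rat {lam : ℝ} (hlam : 0 < lam) (L : ℕ) {p q : ℕ} (hp : 0 < p) (hpq : p < q)
    (hc : Nat.Coprime p q) :
    ∃ ρ > 0, ∀ β : ℝ, 0 < β → β < 1 → β ≠ p / q → |β - p / q| < ρ → Good lam L β := by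
  have hc' : Nat.Coprime q (5 * q + p) := by
    rw [Nat.coprime_mul_right_add_right]; exact hc.symm
  have M := model_cw hlam.le (show 0 < q by omega) (show q < 5 * q + p by omega) hc'
  obtain ⟨ε0, hε0, hL⟩ := sep_lower (xR lam q (5 * q + p)) (q := 5 * q + p) (by omega)
    (monic_xP _ (by omega)).2
    (card_roots_xP _ (by omega) fun E hE => M.deriv_ne hlam (by omega) E (by rw [hE]; norm_num))
    (M.deriv_ne hlam (by omega)) (4 + lam ^ 2)
  set ε := ε0 / (L + 1) with hε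
  have hε1 : 0 < ε := by positivity
  obtain ⟨ρ1, hρ1, h1⟩ := approx_rat hlam (show 0 < q by omega) (show q < 5 * q + p by omega)
    hc' hε0
  obtain ⟨ρ2, hρ2, h2⟩ := approx_rat hlam hp hpq hc (show 0 < ε / 4 by positivity)
  refine ⟨min ρ1 ρ2, by positivity, ?_⟩
  intro β b0 b1 bne bcl H₁ H₂ hH₁ hH₂
  have hq : (0 : ℝ) < q := by have : 0 < q := by omega
                              positivity
  have hr0 : (0 : ℝ) ≤ p / q := by positivity
  have e : ((q : ℝ)) / ((5 * q + p : ℕ) : ℝ) = (5 + (p : ℝ) / q)⁻¹ := by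
    push_cast; field_simp
  obtain ⟨a1, a2⟩ := h1 (5 + β)⁻¹ (by positivity) (inv_lt_one_of_one_lt₀ (by linarith))
    (by rw [e]; intro h; apply bne; have := inv_injective h; linarith) (by
      rw [e, inv_sub_inv (by positivity) (by positivity), abs_div,
        abs_of_pos (show 0 < (5 + β) * (5 + (p : ℝ) / q) by positivity),
        div_lt_iff₀ (by positivity)]
      have : |5 + (p : ℝ) / q - (5 + β)| = |β - p / q| := by
        rw [abs_sub_comm]; congr 1; ring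
      rw [this]
      have h3 : |β - p / q| < ρ1 := lt_of_lt_of_le bcl (min_le_left _ _)
      have h4 : 1 ≤ (5 + β) * (5 + (p : ℝ) / q) := by nlinarith
      nlinarith) H₁ hH₁
  obtain ⟨c1, c2⟩ := h2 β b0 b1 bne (lt_of_lt_of_le bcl (min_le_right _ _)) H₂ hH₂
  refine ⟨ε, hε1, 4 * q + 1, (hL _ a1 a2).mono ?_ (by omega), ?_⟩
  · rw [hε, mul_div_assoc', div_le_iff₀ (by positivity)]
    nlinarith
  · exact sep_upper (xR lam p q) (by omega) (monic_xP _ (by omega)).2 (4 + lam ^ 2) hε1 _ c1 c2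

theorem good_right_of_rat {lam : ℝ} (hlam : 0 < lam) (L : ℕ) (r : ℚ) (hr : r ≠ 0) :
    ∃ ρ > 0, ∀ β : ℝ, (r : ℝ) < β → β < r + ρ → 0 < β → β < 1 → Good lam L β := by
  rcases lt_or_gt_of_ne hr with h | h
  · have : (r : ℝ) < 0 := by exact_mod_cast h
    exact ⟨-r, by linarith, fun β _ _ _ _ => by linarith⟩
  rcases le_or_gt 1 r with h' | h'
  · have : (1 : ℝ) ≤ r := by exact_mod_cast h'
    exact ⟨1, one_pos, fun β _ _ _ _ => by linarith⟩
  have hnum : 0 < r.num := Rat.num_pos.mpr h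
  have hcast : ((r.num.natAbs : ℕ) : ℤ) = r.num := Int.natAbs_of_nonneg hnum.le
  have hlt : r.num.natAbs < r.den := by
    have := Rat.num_lt_denom_iff.mpr h'
    omega
  have e : (r : ℝ) = (r.num.natAbs : ℕ) / r.den := by
    rw [Rat.cast_def, ← hcast]
    simp
  obtain ⟨ρ, hρ, hg⟩ := good_near_rat hlam L (show 0 < r.num.natAbs by omega) hlt r.reduced
  refine ⟨ρ, hρ, fun β a b c d => hg β c d ?_ ?_⟩
  · rw [← e]; exact a.ne'
  · rw [← e, abs_lt]; constructor <;> linarith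

theorem exists_good {lam : ℝ} (hlam : 0 < lam) :
    ∃ β : ℝ, Irrational β ∧ 0 < β ∧ β < 1 ∧ ∀ L, Good lam L β := by
  have hd : ∀ L : ℕ, interior {β : ℝ | 0 < β → β < 1 → Good lam L β} ∈ residual ℝ := by
    intro L
    apply residual_of_dense_open isOpen_interior
    rw [dense_iff_exists_between]
    intro a b hab
    obtain ⟨r, hr0, hr1, hr2⟩ : ∃ r : ℚ, r ≠ 0 ∧ a < r ∧ (r : ℝ) < b := by
      rcases lt_or_ge a 0 with h | h
      · obtain ⟨r, h1, h2⟩ := exists_rat_btwn (lt_min hab h)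
        refine ⟨r, ?_, h1, lt_of_lt_of_le h2 (min_le_left _ _)⟩
        rintro rfl
        have := lt_of_lt_of_le h2 (min_le_right _ _)
        simp at this
      · obtain ⟨r, h1, h2⟩ := exists_rat_btwn hab
        refine ⟨r, ?_, h1, h2⟩
        rintro rfl
        simp at h1
        linarith
    obtain ⟨ρ, hρ, hg⟩ := good_right_of_rat hlam L r hr0
    obtain ⟨c, hc1, hc2⟩ := exists_between (lt_min hr2 (show (r : ℝ) < r + ρ by linarith))
    refine ⟨c, ?_, by linarith, lt_of_lt_of_le hc2 (min_le_left _ _)⟩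
    apply interior_maximal (t := Set.Ioo (r : ℝ) (r + ρ)) (fun β hβ => hg β hβ.1 hβ.2) isOpen_Ioo
    exact ⟨hc1, lt_of_lt_of_le hc2 (min_le_right _ _)⟩
  have h1 := Filter.inter_mem (countable_iInter_mem.mpr hd) eventually_residual_irrational
  obtain ⟨β, hβ, b0, b1⟩ := dense_iff_exists_between.mp (dense_of_mem_residual h1) 0 1 one_pos
  exact ⟨β, hβ.2, b0, b1, fun L => interior_subset (Set.mem_iInter.mp hβ.1 L) b0 b1⟩

end Pool.Agent.Lib.MP_73239e_mp
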