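import Pool.Agent.Lib.MP_73239e_mp.Floquet

set_option autoImplicit false

open Polynomial

namespace Pool.Agent.Lib.MP_73239e_mp

/-- Two periodic potentials that differ by swapping the first two letters of the period. -/
structure Model (lam : ℝ) (q : ℕ) (W1 W2 : ℤ → ℝ) : Prop where
  per1 : ∀ n, W1 (n + q) = W1 n
  per2 : ∀ n, W2 (n + q) = W2 n
  b1 : ∀ n, |W1 n| ≤ lam
  b2 : ∀ n, |W2 n| ≤ lam
  s0 : W1 0 = W2 1
  s1 : W1 1 = W2 0
  agree : ∀ k : ℕ, 2 ≤ k → k < q → W1 k = W2 k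
  jump : (W1 0 - W2 0) ^ 2 = lam ^ 2
  tr : xP (fun n => W1 n) q = xP (fun n => W2 n) q

theorem Model.symm {lam : ℝ} {q : ℕ} {W1 W2 : ℤ → ℝ} (M : Model lam q W1 W2) :
    Model lam q W2 W1 :=
  ⟨M.per2, M.per1, M.b2, M.b1, M.s1.symm, M.s0.symm, fun k a b => (M.agree k a b).symm,
    by rw [← M.jump]; ring, M.tr.symm⟩

theorem block {V : ℤ → ℝ} {E : ℝ} {u : ℤ → ℂ} (hu : IsSol V E u) (m : ℤ) (c : ℕ → ℝ) (q : ℕ)
    (h : ∀ k < q, E - V (m + k) = c k) :
    u (m + q) = (fa c (q + 1) : ℝ) * u m + (fb c (q + 1) : ℝ) * u (m - 1) ∧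
      u (m + q - 1) = (fa c q : ℝ) * u m + (fb c q : ℝ) * u (m - 1) := by
  have := eq_of_rec (fun k => ((c k : ℝ) : ℂ)) (fun k => u (m - 1 + k)) q (by
    intro k hk
    have h1 := hu (m + k)
    have e1 : m - 1 + ((k + 2 : ℕ) : ℤ) = m + k + 1 := by push_cast; ring
    have e2 : m - 1 + ((k + 1 : ℕ) : ℤ) = m + k := by push_cast; ring
    have e3 : m - 1 + (k : ℤ) = m + k - 1 := by ring
    simp only [e1, e2, e3]
    rw [← h k hk]
    push_cast
    linear_combination h1) q le_rfl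
  have fa' : ∀ n, fa (fun k => ((c k : ℝ) : ℂ)) n = (fa c n : ℝ) := fun n =>
    (map_fa Complex.ofRealHom c n).symm
  have fb' : ∀ n, fb (fun k => ((c k : ℝ) : ℂ)) n = (fb c n : ℝ) := fun n =>
    (map_fb Complex.ofRealHom c n).symm
  have e1 : m - 1 + ((q + 1 : ℕ) : ℤ) = m + q := by push_cast; ring
  have e2 : m - 1 + ((1 : ℕ) : ℤ) = m := by push_cast; ring
  have e3 : m - 1 + (q : ℤ) = m + q - 1 := by ring
  have e4 : m - 1 + ((0 : ℕ) : ℤ) = m - 1 := by push_cast; ring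
  simp only [fa', fb', e1, e2, e3, e4] at this
  exact ⟨by linear_combination this.2, by linear_combination this.1⟩

theorem disc_shift_int {W : ℤ → ℝ} {q : ℕ} (hW : ∀ n, W (n + q) = W n) (E : ℝ) (t : ℤ) :
    disc (fun k : ℕ => E - W (t + k)) q = disc (fun k : ℕ => E - W k) q := by
  have step : ∀ t : ℤ, disc (fun k : ℕ => E - W (t + 1 + k)) q
      = disc (fun k : ℕ => E - W (t + k)) q := by
    intro t
    rw [← disc_shift (fun k : ℕ => E - W (t + k)) q (by simp [hW])]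
    congr 1
    funext k
    push_cast
    congr 2
    ring
  induction t using Int.induction_on with
  | zero => simp
  | succ i ih => rw [step, ih]
  | pred i ih => rw [← step, ← ih]; simp

theorem per_id {V : ℤ → ℝ} {E : ℝ} {u : ℤ → ℂ} (hu : IsSol V E u) {W : ℤ → ℝ} {q : ℕ}
    (hW : ∀ n, W (n + q) = W n) (m s : ℤ) (h : ∀ n, m - q ≤ n → n < m + q → V n = W (n - s)) :
    u (m + q) + u (m - q) = ((xP (fun n => W n) q).eval E : ℝ) * u m ∧
      u (m + q - 1) + u (m - q - 1) = ((xP (fun n => W n) q).eval E : ℝ) * u (m - 1) := by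
  set c : ℕ → ℝ := fun k => E - W (m - s + k) with hc
  obtain ⟨a1, a2⟩ := block hu m c q (by
    intro k hk
    rw [h (m + k) (by omega) (by omega)]
    simp only [hc]
    congr 2
    ring)
  obtain ⟨b1, b2⟩ := block hu (m - q) c q (by
    intro k hk
    rw [h (m - q + k) (by omega) (by omega), ← hW]
    simp only [hc]
    congr 2
    ring)
  rw [sub_add_cancel] at b1 b2
  have w := congrArg (fun t : ℝ => (t : ℂ)) (wronskian c q)
  have d : (xP (fun n => W n) q).eval E = fa c (q + 1) + fb c q := by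
    rw [eval_xP, ← disc_shift_int hW E (m - s)]; rfl
  rw [d]
  push_cast at w ⊢
  set A : ℂ := ((fa c (q + 1) : ℝ) : ℂ)
  set B : ℂ := ((fb c (q + 1) : ℝ) : ℂ)
  set C' : ℂ := ((fa c q : ℝ) : ℂ)
  set D : ℂ := ((fb c q : ℝ) : ℂ)
  constructor
  · linear_combination a1 - D * b1 + B * b2 - u (m - q) * w
  · linear_combination a2 + C' * b1 - A * b2 - u (m - q - 1) * w

theorem bound_fab (c : ℕ → ℝ) (K : ℝ) (q : ℕ) (hK : 0 ≤ K) (hc : ∀ k, |c k| ≤ K) :
    |fa c (q + 1)| ≤ (K + 2) ^ q ∧ |fb c (q + 1)| ≤ (K + 2) ^ q ∧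
      |fa c q| ≤ (K + 2) ^ q ∧ |fb c q| ≤ (K + 2) ^ q := by
  have h1 := gron_nat (fun k => ((fa c k : ℝ) : ℂ)) (fun k => ((c k : ℝ) : ℂ)) (fun _ => 0) K 1 q hK
    (fun k _ => by simpa using hc k) (fun _ _ => by simp) (by simp) (by simp)
    (fun k _ => by rw [fa_two]; push_cast; ring) q le_rfl
  have h2 := gron_nat (fun k => ((fb c k : ℝ) : ℂ)) (fun k => ((c k : ℝ) : ℂ)) (fun _ => 0) K 1 q hK
    (fun k _ => by simpa using hc k) (fun _ _ => by simp) (by simp) (by simp)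
    (fun k _ => by rw [fb_two]; push_cast; ring) q le_rfl
  simp only [Complex.norm_real, Real.norm_eq_abs, mul_one] at h1 h2
  exact ⟨h1.2, h2.2, h1.1, h2.1⟩

theorem exists_nu {x : ℝ} (hx : 2 < |x|) : ∃ ν : ℝ, ν ^ 2 - x * ν + 1 = 0 ∧ |ν| ≤ 2 / |x| := by
  have pos : ∀ y : ℝ, 2 < y → ∃ ν : ℝ, ν ^ 2 - y * ν + 1 = 0 ∧ |ν| ≤ 2 / y := by
    intro y hy
    have h4 : 0 ≤ y ^ 2 - 4 := by nlinarith
    have hs := Real.sq_sqrt h4
    have hs0 := Real.sqrt_nonneg (y ^ 2 - 4)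
    set s := Real.sqrt (y ^ 2 - 4)
    have hsy : s ≤ y := by nlinarith
    refine ⟨(y - s) / 2, by nlinarith, ?_⟩
    rw [abs_of_nonneg (by linarith), le_div_iff₀ (by linarith)]
    nlinarith
  rcases le_or_gt 0 x with h | h
  · rw [abs_of_nonneg h] at hx ⊢
    exact pos x hx
  · rw [abs_of_neg h] at hx ⊢
    obtain ⟨ν, a, b⟩ := pos (-x) hx
    exact ⟨-ν, by linarith, by rwa [abs_neg]⟩

theorem decay (a : ℕ → ℂ) (x ν τ B : ℝ) (k : ℕ) (hν : ν ^ 2 - x * ν + 1 = 0) (hτ : |ν| ≤ τ)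
    (hτ1 : τ ≤ 1) (h : ∀ i < k, a (i + 2) + a i = (x : ℂ) * a (i + 1))
    (h1 : ‖a k‖ ≤ B) (h2 : ‖a (k + 1)‖ ≤ B) : ‖a 1 - (ν : ℂ) * a 0‖ ≤ τ ^ k * (2 * B) := by
  have hν' : (ν : ℂ) ^ 2 - (x : ℂ) * ν + 1 = 0 := by exact_mod_cast hν
  have key : ∀ i ≤ k, a 1 - (ν : ℂ) * a 0 = (ν : ℂ) ^ i * (a (i + 1) - (ν : ℂ) * a i) := by
    intro i
    induction i with
    | zero => intro _; simp
    | succ i ih =>
      intro hi
      rw [ih (by omega)]
      have := h i (by omega)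
      linear_combination (ν : ℂ) ^ i * a (i + 1) * hν' - (ν : ℂ) ^ (i + 1) * this
  rw [key k le_rfl, norm_mul, norm_pow, Complex.norm_real, Real.norm_eq_abs]
  have h0 := abs_nonneg ν
  have hτ0 : 0 ≤ τ := le_trans h0 hτ
  have hB : 0 ≤ B := le_trans (norm_nonneg _) h1
  have : ‖a (k + 1) - (ν : ℂ) * a k‖ ≤ 2 * B := by
    refine le_trans (norm_sub_le _ _) ?_
    rw [norm_mul, Complex.norm_real, Real.norm_eq_abs]
    have : |ν| * ‖a k‖ ≤ 1 * B := by gcongr; linarith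
    linarith
  gcongr

theorem per_contr {x η B : ℝ} {a b c : ℂ} (hη : 0 < η) (hx : 2 + η ≤ |x|)
    (h : a + b = (x : ℂ) * c) (ha : ‖a‖ ≤ B) (hb : ‖b‖ ≤ B) : ‖c‖ ≤ 2 / (2 + η) * B := by
  have e : |x| * ‖c‖ ≤ 2 * B := by
    rw [← Real.norm_eq_abs, ← Complex.norm_real, ← norm_mul, ← h]
    linarith [norm_add_le a b]
  rw [div_mul_eq_mul_div, le_div_iff₀ (by linarith)]
  have := norm_nonneg c
  nlinarith

theorem norm_comb {s t : ℝ} {a b : ℂ} {L G : ℝ} (hs : |s| ≤ 4 * L) (ht : |t| ≤ 2 * L)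
    (ha : ‖a‖ ≤ G) (hb : ‖b‖ ≤ G) : ‖(s : ℂ) * a + (t : ℂ) * b‖ ≤ 6 * L * G := by
  refine le_trans (norm_add_le _ _) ?_
  rw [norm_mul, norm_mul, Complex.norm_real, Complex.norm_real, Real.norm_eq_abs,
    Real.norm_eq_abs]
  have h0 := abs_nonneg t
  have : |s| * ‖a‖ ≤ 4 * L * G := by gcongr; linarith
  have : |t| * ‖b‖ ≤ 2 * L * G := by gcongr; linarith
  linarith

/-- The contraction property near at most one defect. -/
theorem contr_model {lam : ℝ} (hlam : 0 ≤ lam) {q : ℕ} (hq : 2 ≤ q) {η : ℝ} (hη : 0 < η) :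
    ∃ (R : ℕ) (θ : ℝ), 0 ≤ θ ∧ θ < 1 ∧ ∀ W1 W2 : ℤ → ℝ, Model lam q W1 W2 → ∀ E : ℝ,
      |E| ≤ 2 + lam → 2 + η ≤ |(xP (fun n => W1 n) q).eval E| →
      η ≤ |((xP (fun n => W1 n) q).eval E) ^ 2 - 4 - lam ^ 2| →
      ∀ V : ℤ → ℝ, (∀ n, |V n| ≤ lam) → ∀ u, IsSol V E u → ∀ (m s : ℤ) (B : ℝ),
        (∀ n, |n - m| ≤ R → V n = if n < s then W1 (n - s) else W2 (n - s)) →
        (∀ j : ℤ, |j| ≤ R → ‖u (m + j)‖ ≤ B) → ‖u m‖ ≤ θ * B := by
  set K := 2 + 2 * lam with hK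
  have hK0 : 0 ≤ K := by positivity
  set Λ := (K + 2) ^ q with hΛ
  have hΛ0 : 0 < Λ := by positivity
  set τ := 2 / (2 + η) with hτ
  have hτ0 : 0 < τ := by positivity
  have hτ1 : τ < 1 := by rw [hτ, div_lt_one (by linarith)]; linarith
  obtain ⟨k, hk⟩ := exists_pow_lt_of_lt_one (show 0 < η / (48 * Λ ^ 2) by positivity) hτ1
  refine ⟨(k + 2) * q + 1, max τ (1 / 2), le_trans hτ0.le (le_max_left _ _),
    max_lt hτ1 (by norm_num), ?_⟩
  intro W1 W2 M E hE hx1 hx2 V hV u hu m s B hloc hB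
  have hB' : ∀ n : ℤ, |n - m| ≤ ((k + 2) * q + 1 : ℕ) → ‖u n‖ ≤ B := by
    intro n hn
    have := hB (n - m) hn
    rwa [add_sub_cancel] at this
  have hB0 : 0 ≤ B := le_trans (norm_nonneg _) (hB' m (by simp; positivity))
  set x := (xP (fun n => W1 n) q).eval E with hx
  have hx' : x = (xP (fun n => W2 n) q).eval E := by rw [hx, M.tr]
  have hq0 : (0 : ℤ) ≤ q := by positivity
  have hkq : (0 : ℤ) ≤ (k : ℤ) * q := by positivity
  have win : ∀ n : ℤ, m - ((k : ℤ) * q + 2 * q + 1) ≤ n → n ≤ m + ((k : ℤ) * q + 2 * q + 1) →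
      |n - m| ≤ ((k + 2) * q + 1 : ℕ) := by
    intro n h1 h2
    push_cast
    rw [abs_le]
    constructor <;> linarith
  rcases le_or_gt (s + q) m with c1 | c1
  · obtain ⟨h, -⟩ := per_id hu M.per2 m s (by
      intro n h1 h2
      rw [hloc n (win n (by linarith) (by linarith)), if_neg (by omega)])
    rw [← hx'] at h
    refine le_trans (per_contr hη hx1 h (hB' _ (win _ (by linarith) (by linarith)))
      (hB' _ (win _ (by linarith) (by linarith)))) ?_
    gcongr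
    exact le_max_left _ _
  rcases le_or_gt (m + q) s with c2 | c2
  · obtain ⟨h, -⟩ := per_id hu M.per1 m s (by
      intro n h1 h2
      rw [hloc n (win n (by linarith) (by linarith)), if_pos (by omega)])
    rw [← hx] at h
    refine le_trans (per_contr hη hx1 h (hB' _ (win _ (by linarith) (by linarith)))
      (hB' _ (win _ (by linarith) (by linarith)))) ?_
    gcongr
    exact le_max_left _ _
  obtain ⟨ν, hν, hν2⟩ := exists_nu (show 2 < |x| by linarith)
  have hντ : |ν| ≤ τ := le_trans hν2 (by rw [hτ]; gcongr)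
  have right : ∀ i : ℕ, i < k →
      u (s + (i + 1) * q + q) + u (s + (i + 1) * q - q) = (x : ℂ) * u (s + (i + 1) * q) ∧
      u (s + (i + 1) * q + q - 1) + u (s + (i + 1) * q - q - 1)
        = (x : ℂ) * u (s + (i + 1) * q - 1) := by
    intro i hi
    have hi' : ((i : ℤ) + 1) * q ≤ k * q := by gcongr; exact_mod_cast hi
    have hi0 : (0 : ℤ) ≤ (i : ℤ) * q := by positivity
    rw [hx']
    apply per_id hu M.per2 (s + (i + 1) * q) s
    intro n h1 h2
    rw [hloc n (win n (by linarith) (by linarith)), if_neg (by linarith)]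
  have left : ∀ i : ℕ, i < k →
      u (s - (i + 1) * q + q) + u (s - (i + 1) * q - q) = (x : ℂ) * u (s - (i + 1) * q) ∧
      u (s - (i + 1) * q + q - 1) + u (s - (i + 1) * q - q - 1)
        = (x : ℂ) * u (s - (i + 1) * q - 1) := by
    intro i hi
    have hi' : ((i : ℤ) + 1) * q ≤ k * q := by gcongr; exact_mod_cast hi
    have hi0 : (0 : ℤ) ≤ (i : ℤ) * q := by positivity
    rw [hx]
    apply per_id hu M.per1 (s - (i + 1) * q) s
    intro n h1 h2
    rw [hloc n (win n (by linarith) (by linarith)), if_pos (by linarith)]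
  have g1 := decay (fun i => u (s + i * q)) x ν τ B k hν hντ hτ1.le (by
      intro i hi
      have := (right i hi).1
      push_cast
      convert this using 3 <;> ring)
    (hB' _ (win _ (by linarith) (by linarith)))
    (hB' _ (win _ (by push_cast; linarith) (by push_cast; linarith)))
  have g2 := decay (fun i => u (s + i * q - 1)) x ν τ B k hν hντ hτ1.le (by
      intro i hi
      have := (right i hi).2
      push_cast
      convert this using 3 <;> ring)
    (hB' _ (win _ (by linarith) (by linarith)))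
    (hB' _ (win _ (by push_cast; linarith) (by push_cast; linarith)))
  have g3 := decay (fun i => u (s - i * q)) x ν τ B k hν hντ hτ1.le (by
      intro i hi
      have := (left i hi).1
      push_cast
      rw [add_comm]
      convert this using 3 <;> ring)
    (hB' _ (win _ (by linarith) (by linarith)))
    (hB' _ (win _ (by push_cast; linarith) (by push_cast; linarith)))
  have g4 := decay (fun i => u (s - i * q - 1)) x ν τ B k hν hντ hτ1.le (by
      intro i hi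
      have := (left i hi).2
      push_cast
      rw [add_comm]
      convert this using 3 <;> ring)
    (hB' _ (win _ (by linarith) (by linarith)))
    (hB' _ (win _ (by push_cast; linarith) (by push_cast; linarith)))
  simp only [Nat.cast_one, one_mul, Nat.cast_zero, zero_mul, add_zero, sub_zero] at g1 g2 g3 g4
  set c1' : ℕ → ℝ := fun k => E - W1 k with hc1
  set c2' : ℕ → ℝ := fun k => E - W2 k with hc2
  obtain ⟨p1, p2⟩ := block hu (s - q) c1' q (by
    intro i hi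
    rw [hloc _ (win _ (by omega) (by omega)), if_pos (by omega), ← M.per1]
    simp only [hc1]
    congr 2
    ring)
  obtain ⟨q1, q2⟩ := block hu s c2' q (by
    intro i hi
    rw [hloc _ (win _ (by omega) (by omega)), if_neg (by omega)]
    simp only [hc2]
    congr 2
    ring)
  rw [sub_add_cancel] at p1 p2
  have w1 := wronskian c1' q
  have t1 : x = fa c1' (q + 1) + fb c1' q := by rw [hx, eval_xP]; rfl
  have t2 : x = fa c2' (q + 1) + fb c2' q := by rw [hx', eval_xP]; rfl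
  have dd := det_diff c1' c2' q (by simp [hc1, hc2, M.s0]) (by simp [hc1, hc2, M.s1])
    (fun i h1 h2 => by simp [hc1, hc2, M.agree i h1 h2]) q hq le_rfl
  have dj : (c1' 0 - c2' 0) ^ 2 = lam ^ 2 := by
    rw [← M.jump]; simp only [hc1, hc2, Nat.cast_zero]; ring
  rw [dj] at dd
  have hcK : ∀ W : ℤ → ℝ, (∀ n, |W n| ≤ lam) → ∀ n, |E - W n| ≤ K := by
    intro W hW n
    have := abs_sub E (W n)
    have := hW n
    linarith
  obtain ⟨bA1, bB1, bC1, bD1⟩ := bound_fab c1' K q hK0 (fun i => hcK W1 M.b1 i)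
  obtain ⟨bA2, bB2, bC2, bD2⟩ := bound_fab c2' K q hK0 (fun i => hcK W2 M.b2 i)
  rw [← hΛ] at bA1 bB1 bC1 bD1 bA2 bB2 bC2 bD2
  set A1 := fa c1' (q + 1)
  set B1 := fb c1' (q + 1)
  set C1 := fa c1' q
  set D1 := fb c1' q
  set A2 := fa c2' (q + 1)
  set B2 := fb c2' (q + 1)
  set C2 := fa c2' q
  set D2 := fb c2' q
  set κ := x - 2 * ν with hκ
  have hκ2 : κ ^ 2 = x ^ 2 - 4 := by rw [hκ]; linear_combination 4 * hν
  have hκx : |κ| ≤ 2 * Λ := by
    have h1 : |κ| ≤ |x| := sq_le_sq.mp (by linarith)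
    have h2 : |x| ≤ |A1| + |D1| := by rw [t1]; exact abs_add_le _ _
    linarith
  have hd1 : |A1 - A2| ≤ 2 * Λ := by linarith [abs_sub A1 A2]
  have hd2 : |B1 - B2| ≤ 2 * Λ := by linarith [abs_sub B1 B2]
  have hd3 : |C1 - C2| ≤ 2 * Λ := by linarith [abs_sub C1 C2]
  set G1 := (u (s + q) - (ν : ℂ) * u s) + (u (s - q) - (ν : ℂ) * u s) with hG1
  set G2 := (u (s + q - 1) - (ν : ℂ) * u (s - 1)) + (u (s - q - 1) - (ν : ℂ) * u (s - 1))
    with hG2
  have nG1 : ‖G1‖ ≤ τ ^ k * (4 * B) := le_trans (norm_add_le _ _) (by linarith)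
  have nG2 : ‖G2‖ ≤ τ ^ k * (4 * B) := le_trans (norm_add_le _ _) (by linarith)
  have w1' : (A1 : ℂ) * D1 - B1 * C1 = 1 := by exact_mod_cast w1
  have t1' : (x : ℂ) = A1 + D1 := by exact_mod_cast t1
  have t2' : (x : ℂ) = A2 + D2 := by exact_mod_cast t2
  have hκ' : (κ : ℂ) = x - 2 * ν := by rw [hκ]; push_cast; ring
  have eG1 : G1 = ((κ : ℂ) - (A1 - A2)) * u s - (B1 - B2) * u (s - 1) := by
    rw [hG1, hκ']
    linear_combination q1 - D1 * p1 + B1 * p2 - u (s - q) * w1' - u s * t1'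
  have eG2 : G2 = -((C1 : ℂ) - C2) * u s + ((κ : ℂ) + (A1 - A2)) * u (s - 1) := by
    rw [hG2, hκ']
    linear_combination q2 + C1 * p1 - A1 * p2 - u (s - q - 1) * w1' - u (s - 1) * t2'
  have dd2 : (A1 - A2) ^ 2 + (B1 - B2) * (C1 - C2) = lam ^ 2 := by
    have : D1 - D2 = -(A1 - A2) := by linarith
    rw [this] at dd
    linarith
  have hρ : κ ^ 2 - ((A1 - A2) ^ 2 + (B1 - B2) * (C1 - C2)) = x ^ 2 - 4 - lam ^ 2 := by
    rw [dd2, hκ2]
  have hρ' : (κ : ℂ) ^ 2 - (((A1 : ℂ) - A2) ^ 2 + (B1 - B2) * (C1 - C2))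
      = ((x ^ 2 - 4 - lam ^ 2 : ℝ) : ℂ) := by rw [← hρ]; push_cast; ring
  have y1 : ((x ^ 2 - 4 - lam ^ 2 : ℝ) : ℂ) * u s
      = ((κ + (A1 - A2) : ℝ) : ℂ) * G1 + ((B1 - B2 : ℝ) : ℂ) * G2 := by
    rw [← hρ', eG1, eG2]; push_cast; ring
  have y2 : ((x ^ 2 - 4 - lam ^ 2 : ℝ) : ℂ) * u (s - 1)
      = ((κ - (A1 - A2) : ℝ) : ℂ) * G2 + ((C1 - C2 : ℝ) : ℂ) * G1 := by
    rw [← hρ', eG1, eG2]; push_cast; ring
  have n1 := norm_comb (s := κ + (A1 - A2)) (L := Λ) (by linarith [abs_add_le κ (A1 - A2)])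
    hd2 nG1 nG2
  have n2 := norm_comb (s := κ - (A1 - A2)) (L := Λ) (by linarith [abs_sub κ (A1 - A2)])
    hd3 nG2 nG1
  rw [← y1, norm_mul, Complex.norm_real, Real.norm_eq_abs] at n1
  rw [← y2, norm_mul, Complex.norm_real, Real.norm_eq_abs] at n2
  have fin : ∀ y : ℝ, 0 ≤ y → |x ^ 2 - 4 - lam ^ 2| * y ≤ 6 * Λ * (τ ^ k * (4 * B)) →
      y ≤ B / (2 * Λ) := by
    intro y hy h
    have h1 : η * y ≤ 6 * Λ * (τ ^ k * (4 * B)) := le_trans (by gcongr) h
    have h2 : 6 * Λ * (τ ^ k * (4 * B)) ≤ 6 * Λ * (η / (48 * Λ ^ 2) * (4 * B)) := by gcongr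
    have h3 : 6 * Λ * (η / (48 * Λ ^ 2) * (4 * B)) = η * (B / (2 * Λ)) := by
      field_simp; ring
    exact le_of_mul_le_mul_left (by linarith) hη
  have f1 := fin _ (norm_nonneg _) n1
  have f2 := fin _ (norm_nonneg _) n2
  have gr := gron_int u (fun _ => 0) V E K (B / (2 * Λ)) q (s - 1) (hcK V hV)
    (fun _ _ => by simp; positivity) f2 (by rw [sub_add_cancel]; exact f1)
    (fun n => by rw [add_zero]; exact hu n) (m - s + 1) (by rw [abs_le]; constructor <;> omega)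
  have e : s - 1 + (m - s + 1) = m := by ring
  rw [e, ← hΛ] at gr
  have e2 : Λ * (B / (2 * Λ)) = 1 / 2 * B := by field_simp
  rw [e2] at gr
  refine le_trans gr ?_
  gcongr
  exact le_max_right _ _

/-- In a model with a nonzero jump the discriminant has no critical point inside the bands. -/
theorem Model.deriv_ne {lam : ℝ} (hlam : 0 < lam) {q : ℕ} (hq : 2 ≤ q) {W1 W2 : ℤ → ℝ}
    (M : Model lam q W1 W2) (E : ℝ) (hx : ((xP (fun n => W1 n) q).eval E) ^ 2 ≤ 4) :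
    (derivative (xP (fun n => W1 n) q)).eval E ≠ 0 := by
  intro hd
  obtain ⟨a, b, c⟩ := scalar_of_crit (fun n => W1 n) hq E hx hd
  set c1' : ℕ → ℝ := fun k => E - W1 k with hc1
  set c2' : ℕ → ℝ := fun k => E - W2 k with hc2
  have w1 := wronskian c1' q
  have w2 := wronskian c2' q
  have t : fa c1' (q + 1) + fb c1' q = fa c2' (q + 1) + fb c2' q := by
    have := congrArg (Polynomial.eval E) M.tr
    rw [eval_xP, eval_xP] at this
    exact this
  have dd := det_diff c1' c2' q (by simp [hc1, hc2, M.s0]) (by simp [hc1, hc2, M.s1])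
    (fun i h1 h2 => by simp [hc1, hc2, M.agree i h1 h2]) q hq le_rfl
  have dj : (c1' 0 - c2' 0) ^ 2 = lam ^ 2 := by
    rw [← M.jump]; simp only [hc1, hc2, Nat.cast_zero]; ring
  rw [dj, a, b, c] at dd
  rw [a, b, c] at w1
  rw [c] at t
  have : lam ^ 2 = 0 := by
    linear_combination dd + w1 - w2 - fb c1' q * t
  have := pow_pos hlam 2
  linarith

end Pool.Agent.Lib.MP_73239e_mp
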