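import Pool.Agent.Lib.MP_73239e_mp.Sol

set_option autoImplicit false

open Polynomial
open scoped ComplexConjugate

namespace Pool.Agent.Lib.MP_73239e_mp

section Ring

variable {R : Type*} [CommRing R]

@[simp] theorem sol_zero (c : ℕ → R) (a b : R) : sol c a b 0 = a := rfl
@[simp] theorem sol_one (c : ℕ → R) (a b : R) : sol c a b 1 = b := rfl
theorem sol_two (c : ℕ → R) (a b : R) (n : ℕ) :
    sol c a b (n + 2) = c n * sol c a b (n + 1) - sol c a b n := rfl

/-- First fundamental solution. -/
def fa (c : ℕ → R) : ℕ → R := sol c 0 1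
/-- Second fundamental solution. -/
def fb (c : ℕ → R) : ℕ → R := sol c 1 0
/-- Trace of the transfer matrix over `q` steps. -/
def disc (c : ℕ → R) (q : ℕ) : R := fa c (q + 1) + fb c q

@[simp] theorem fa_zero (c : ℕ → R) : fa c 0 = 0 := rfl
@[simp] theorem fa_one (c : ℕ → R) : fa c 1 = 1 := rfl
@[simp] theorem fb_zero (c : ℕ → R) : fb c 0 = 1 := rfl
@[simp] theorem fb_one (c : ℕ → R) : fb c 1 = 0 := rfl
theorem fa_two (c : ℕ → R) (n : ℕ) : fa c (n + 2) = c n * fa c (n + 1) - fa c n := rfl
theorem fb_two (c : ℕ → R) (n : ℕ) : fb c (n + 2) = c n * fb c (n + 1) - fb c n := rfl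

theorem eq_of_rec (c u : ℕ → R) (N : ℕ) (h : ∀ k < N, u (k + 2) = c k * u (k + 1) - u k) :
    ∀ k ≤ N, u k = u 1 * fa c k + u 0 * fb c k ∧
      u (k + 1) = u 1 * fa c (k + 1) + u 0 * fb c (k + 1) := by
  intro k
  induction k with
  | zero => intro _; simp
  | succ k ih =>
    intro hk
    obtain ⟨a, b⟩ := ih (by omega)
    refine ⟨b, ?_⟩
    rw [h k (by omega), fa_two, fb_two]
    linear_combination c k * b - a

theorem sol_eq (c : ℕ → R) (a b : R) (n : ℕ) : sol c a b n = b * fa c n + a * fb c n :=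
  (eq_of_rec c (sol c a b) n (fun k _ => sol_two c a b k) n le_rfl).1

theorem wronskian (c : ℕ → R) (n : ℕ) : fa c (n + 1) * fb c n - fb c (n + 1) * fa c n = 1 := by
  induction n with
  | zero => simp
  | succ n ih => rw [fa_two, fb_two]; linear_combination ih

theorem map_sol {S : Type*} [CommRing S] (f : R →+* S) (c : ℕ → R) (a b : R) (n : ℕ) :
    f (sol c a b n) = sol (fun k => f (c k)) (f a) (f b) n ∧
      f (sol c a b (n + 1)) = sol (fun k => f (c k)) (f a) (f b) (n + 1) := by
  induction n with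
  | zero => simp
  | succ n ih =>
    refine ⟨ih.2, ?_⟩
    rw [sol_two, sol_two, map_sub, map_mul, ih.1, ih.2]

theorem map_fa {S : Type*} [CommRing S] (f : R →+* S) (c : ℕ → R) (n : ℕ) :
    f (fa c n) = fa (fun k => f (c k)) n := by
  have := (map_sol f c 0 1 n).1
  simpa [fa] using this

theorem map_fb {S : Type*} [CommRing S] (f : R →+* S) (c : ℕ → R) (n : ℕ) :
    f (fb c n) = fb (fun k => f (c k)) n := by
  have := (map_sol f c 1 0 n).1
  simpa [fb] using this

theorem map_disc {S : Type*} [CommRing S] (f : R →+* S) (c : ℕ → R) (q : ℕ) :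
    f (disc c q) = disc (fun k => f (c k)) q := by
  rw [disc, disc, map_add, map_fa, map_fb]

theorem disc_shift (c : ℕ → R) (q : ℕ) (h : c q = c 0) :
    disc (fun k => c (k + 1)) q = disc c q := by
  have ha := eq_of_rec (fun k => c (k + 1)) (fun k => fa c (k + 1)) q
    (fun k _ => fa_two c (k + 1)) q le_rfl
  have hb := eq_of_rec (fun k => c (k + 1)) (fun k => fb c (k + 1)) q
    (fun k _ => fb_two c (k + 1)) q le_rfl
  have a2 : fa c (1 + 1) = c 0 := by rw [fa_two]; simp
  have b2 : fb c (1 + 1) = -1 := by rw [fb_two]; simp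
  simp only [zero_add, fa_one, fb_one, a2, b2] at ha hb
  have h3 := fb_two c q
  rw [h] at h3
  rw [disc, disc]
  linear_combination hb.2 - ha.1 - c 0 * hb.1 - h3

/-- The determinant of the difference of two transfer matrices whose first two letters are
swapped. -/
theorem det_diff (c c' : ℕ → R) (q : ℕ) (h0 : c 0 = c' 1) (h1 : c 1 = c' 0)
    (h : ∀ k, 2 ≤ k → k < q → c k = c' k) :
    ∀ n, 2 ≤ n → n ≤ q →
      (fa c (n + 1) - fa c' (n + 1)) * (fb c n - fb c' n)
        - (fb c (n + 1) - fb c' (n + 1)) * (fa c n - fa c' n) = -(c 0 - c' 0) ^ 2 := by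
  intro n hn
  induction n, hn using Nat.le_induction with
  | base =>
    intro _
    simp only [fa_two, fb_two, fa_one, fb_one, fa_zero, fb_zero, zero_add]
    rw [h1, ← h0]
    ring
  | succ n hn ih =>
    intro hq
    have := ih (by omega)
    rw [fa_two c n, fa_two c' n, fb_two c n, fb_two c' n, ← h n hn (by omega)]
    linear_combination this

end Ring

/-- The discriminant polynomial of the word `W 0, ..., W (q-1)`. -/
noncomputable def xP (W : ℕ → ℝ) (q : ℕ) : ℝ[X] := disc (fun n => X - C (W n)) q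

theorem eval_xP (W : ℕ → ℝ) (q : ℕ) (E : ℝ) :
    (xP W q).eval E = disc (fun n => E - W n) q := by
  have := map_disc (evalRingHom E) (fun n => X - C (W n)) q
  simpa [xP] using this

theorem aeval_xP (W : ℕ → ℝ) (q : ℕ) (z : ℂ) :
    aeval z (xP W q) = disc (fun n => z - (W n : ℂ)) q := by
  have := map_disc (aeval z : ℝ[X] →ₐ[ℝ] ℂ).toRingHom (fun n => X - C (W n)) q
  simpa [xP] using this

theorem deg_fa (W : ℕ → ℝ) (n : ℕ) :
    (fa (fun n => X - C (W n)) (n + 1)).Monic ∧
      (fa (fun n => X - C (W n)) (n + 1)).natDegree = n ∧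
      (fa (fun n => X - C (W n)) n).natDegree ≤ n := by
  induction n with
  | zero => simp
  | succ n ih =>
    obtain ⟨a, b, c⟩ := ih
    have m1 : ((X - C (W n)) * fa (fun n => X - C (W n)) (n + 1)).Monic :=
      (monic_X_sub_C _).mul a
    have d1 : ((X - C (W n)) * fa (fun n => X - C (W n)) (n + 1)).natDegree = n + 1 := by
      rw [(monic_X_sub_C _).natDegree_mul a, natDegree_X_sub_C, b, add_comm]
    have lt : (fa (fun n => X - C (W n)) n).natDegree <
        ((X - C (W n)) * fa (fun n => X - C (W n)) (n + 1)).natDegree := by omega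
    refine ⟨?_, ?_, by omega⟩
    · rw [fa_two]
      exact m1.sub_of_left (degree_lt_degree lt)
    · rw [fa_two, natDegree_sub_eq_left_of_natDegree_lt lt, d1]

theorem deg_fb (W : ℕ → ℝ) (n : ℕ) :
    (fb (fun n => X - C (W n)) n).natDegree ≤ n ∧
      (fb (fun n => X - C (W n)) (n + 1)).natDegree ≤ n := by
  induction n with
  | zero => simp
  | succ n ih =>
    obtain ⟨a, b⟩ := ih
    refine ⟨by omega, ?_⟩
    rw [fb_two]
    refine le_trans (natDegree_sub_le _ _) (max_le ?_ (by omega))
    refine le_trans natDegree_mul_le ?_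
    rw [natDegree_X_sub_C]
    omega

theorem monic_xP (W : ℕ → ℝ) {q : ℕ} (hq : 1 ≤ q) :
    (xP W q).Monic ∧ (xP W q).natDegree = q := by
  obtain ⟨a, b, _⟩ := deg_fa W q
  obtain ⟨k, rfl⟩ : ∃ k, q = k + 1 := ⟨q - 1, by omega⟩
  have c := (deg_fb W k).2
  have lt : (fb (fun n => X - C (W n)) (k + 1)).natDegree <
      (fa (fun n => X - C (W n)) (k + 1 + 1)).natDegree := by omega
  exact ⟨a.add_of_left (degree_lt_degree lt), by
    rw [xP, disc, natDegree_add_eq_left_of_natDegree_lt lt, b]⟩

theorem deriv_formula (W : ℕ → ℝ) (n : ℕ) :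
    let a := fa (fun n => X - C (W n))
    let b := fb (fun n => X - C (W n))
    let Sab := ∑ k ∈ Finset.range n, a (k + 1) * b (k + 1)
    let Saa := ∑ k ∈ Finset.range n, a (k + 1) * a (k + 1)
    let Sbb := ∑ k ∈ Finset.range n, b (k + 1) * b (k + 1)
    derivative (a (n + 1)) = a (n + 1) * Sab - b (n + 1) * Saa ∧
    derivative (a n) = a n * Sab - b n * Saa ∧
    derivative (b (n + 1)) = a (n + 1) * Sbb - b (n + 1) * Sab ∧
    derivative (b n) = a n * Sbb - b n * Sab := by
  induction n with
  | zero => simp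
  | succ n ih =>
    intro a b Sab Saa Sbb
    obtain ⟨h1, h2, h3, h4⟩ := ih
    have w := wronskian (fun n => X - C (W n)) (n + 1)
    have ea := fa_two (fun n => X - C (W n)) n
    have eb := fb_two (fun n => X - C (W n)) n
    have da := congrArg derivative ea
    have db := congrArg derivative eb
    simp only [derivative_sub, derivative_mul, derivative_X, derivative_C, sub_zero,
      one_mul] at da db
    simp only [Sab, Saa, Sbb, Finset.sum_range_succ, a, b]
    refine ⟨?_, ?_, ?_, ?_⟩
    · rw [da, h1, h2]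
      linear_combination (-fa (fun n => X - C (W n)) (n + 1)) * w
        - (∑ k ∈ Finset.range n, fa (fun n => X - C (W n)) (k + 1)
            * fb (fun n => X - C (W n)) (k + 1)) * ea
        + (∑ k ∈ Finset.range n, fa (fun n => X - C (W n)) (k + 1)
            * fa (fun n => X - C (W n)) (k + 1)) * eb
    · rw [h1]; ring
    · rw [db, h3, h4]
      linear_combination (-fb (fun n => X - C (W n)) (n + 1)) * w
        - (∑ k ∈ Finset.range n, fb (fun n => X - C (W n)) (k + 1)
            * fb (fun n => X - C (W n)) (k + 1)) * ea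
        + (∑ k ∈ Finset.range n, fa (fun n => X - C (W n)) (k + 1)
            * fb (fun n => X - C (W n)) (k + 1)) * eb
    · rw [h3]; ring

theorem eval_deriv_xP (W : ℕ → ℝ) (q : ℕ) (E : ℝ) :
    let a := fa (fun n => E - W n)
    let b := fb (fun n => E - W n)
    (derivative (xP W q)).eval E = ∑ k ∈ Finset.range q,
      (a q * b (k + 1) ^ 2 + (a (q + 1) - b q) * (a (k + 1) * b (k + 1))
        - b (q + 1) * a (k + 1) ^ 2) := by
  intro a b
  obtain ⟨h1, -, -, h4⟩ := deriv_formula W q
  have ha : ∀ n, (fa (fun n => X - C (W n)) n).eval E = a n := fun n => by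
    have := map_fa (evalRingHom E) (fun n => X - C (W n)) n
    simpa using this
  have hb : ∀ n, (fb (fun n => X - C (W n)) n).eval E = b n := fun n => by
    have := map_fb (evalRingHom E) (fun n => X - C (W n)) n
    simpa using this
  rw [xP, disc, derivative_add, h1, h4]
  simp only [eval_add, eval_sub, eval_mul, eval_finsetSum, ha, hb, Finset.sum_sub_distrib,
    Finset.sum_add_distrib, ← Finset.mul_sum, sq]
  ring

/-- At a critical point of the discriminant inside the bands the monodromy is scalar. -/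
theorem scalar_of_crit (W : ℕ → ℝ) {q : ℕ} (hq : 2 ≤ q) (E : ℝ)
    (hx : ((xP W q).eval E) ^ 2 ≤ 4) (hd : (derivative (xP W q)).eval E = 0) :
    fb (fun n => E - W n) (q + 1) = 0 ∧ fa (fun n => E - W n) q = 0 ∧
      fa (fun n => E - W n) (q + 1) = fb (fun n => E - W n) q := by
  rw [eval_deriv_xP] at hd
  rw [eval_xP, disc] at hx
  have w := wronskian (fun n => E - W n) q
  set a := fa (fun n => E - W n) with ha
  set b := fb (fun n => E - W n) with hb
  set A := a (q + 1)
  set B := b (q + 1)
  set C' := a q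
  set D := b q
  have hdisc : (A - D) ^ 2 + 4 * B * C' ≤ 0 := by nlinarith
  by_cases hBC : C' - B = 0
  · have : C' = B := by linarith
    rw [this] at hdisc
    have hB : B = 0 := by nlinarith [sq_nonneg (A - D), sq_nonneg B]
    have hAD : A - D = 0 := by nlinarith [sq_nonneg (A - D), sq_nonneg B]
    exact ⟨hB, by rw [this, hB], by linarith⟩
  · exfalso
    have hterm : ∀ k ∈ Finset.range q, 0 ≤ (C' - B) *
        (C' * b (k + 1) ^ 2 + (A - D) * (a (k + 1) * b (k + 1)) - B * a (k + 1) ^ 2) := by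
      intro k _
      have e1 := mul_nonneg (neg_nonneg.mpr hdisc) (sq_nonneg (a (k + 1)))
      have e2 := mul_nonneg (neg_nonneg.mpr hdisc) (sq_nonneg (b (k + 1)))
      nlinarith [sq_nonneg (2 * C' * b (k + 1) + (A - D) * a (k + 1)),
        sq_nonneg (-2 * B * a (k + 1) + (A - D) * b (k + 1))]
    have hsum : ∑ k ∈ Finset.range q, (C' - B) *
        (C' * b (k + 1) ^ 2 + (A - D) * (a (k + 1) * b (k + 1)) - B * a (k + 1) ^ 2) = 0 := by
      rw [← Finset.mul_sum, hd, mul_zero]
    have hz := (Finset.sum_eq_zero_iff_of_nonneg hterm).mp hsum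
    have z0 := hz 0 (Finset.mem_range.mpr (by omega))
    have z1 := hz 1 (Finset.mem_range.mpr (by omega))
    have b2 : b (1 + 1) = -1 := by rw [hb, fb_two]; simp
    have a1 : a (0 + 1) = 1 := rfl
    have b1 : b (0 + 1) = 0 := rfl
    rw [a1, b1] at z0
    rw [b2] at z1
    have hB : B = 0 := by
      rcases mul_eq_zero.mp z0 with h | h
      · exact absurd h hBC
      · linarith
    have hAD : A - D = 0 := by
      rw [hB] at hdisc
      nlinarith [sq_nonneg (A - D)]
    rcases mul_eq_zero.mp z1 with h | h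
    · exact hBC h
    · rw [hB, hAD] at h
      apply hBC
      rw [hB]
      linarith

theorem bloch (c : ℕ → ℂ) (q : ℕ) (ζ : ℂ) (hζ : ζ ^ 2 - disc c q * ζ + 1 = 0) :
    ∃ a b : ℂ, (a ≠ 0 ∨ b ≠ 0) ∧ sol c a b q = ζ * a ∧ sol c a b (q + 1) = ζ * b := by
  have w := wronskian c q
  rw [disc] at hζ
  simp only [sol_eq]
  set A := fa c (q + 1)
  set B := fb c (q + 1)
  set C' := fa c q
  set D := fb c q
  by_cases h1 : ζ - A ≠ 0 ∨ B ≠ 0
  · exact ⟨ζ - A, B, h1, by linear_combination -hζ - w, by ring⟩
  by_cases h2 : C' ≠ 0 ∨ ζ - D ≠ 0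
  · exact ⟨C', ζ - D, h2, by ring, by linear_combination -hζ - w⟩
  push Not at h1 h2
  exact ⟨0, 1, Or.inr one_ne_zero, by simp [h2.1], by linear_combination -h1.1⟩

theorem im_eq_zero_of_disc (W : ℕ → ℝ) {q : ℕ} (hq : 1 ≤ q) (z : ℂ)
    (hz : disc (fun n => z - (W n : ℂ)) q = 0) : z.im = 0 := by
  obtain ⟨a, b, hab, h1, h2⟩ := bloch (fun n => z - (W n : ℂ)) q Complex.I
    (by rw [hz]; simp)
  set u := sol (fun n => z - (W n : ℂ)) a b with hu
  have key : ∀ n, (conj (u n) * u (n + 1)).im - (conj (u 0) * u 1).im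
      = z.im * ∑ k ∈ Finset.range n, Complex.normSq (u (k + 1)) := by
    intro n
    induction n with
    | zero => simp
    | succ n ih =>
      rw [Finset.sum_range_succ, mul_add, ← ih]
      have : u (n + 1 + 1) = (z - (W n : ℂ)) * u (n + 1) - u n := sol_two _ a b n
      rw [this]
      simp [Complex.normSq_apply]
      ring
  have k1 := key q
  have u0 : u 0 = a := rfl
  have u1 : u 1 = b := rfl
  rw [h1, h2, u0, u1] at k1
  have : (conj (Complex.I * a) * (Complex.I * b)).im - (conj a * b).im = 0 := by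
    simp
  rw [this] at k1
  rcases mul_eq_zero.mp k1.symm with h | h
  · exact h
  · exfalso
    have hz := (Finset.sum_eq_zero_iff_of_nonneg (fun k _ => Complex.normSq_nonneg _)).mp h
    have z0 := hz 0 (Finset.mem_range.mpr (by omega))
    have z1 := hz (q - 1) (Finset.mem_range.mpr (by omega))
    rw [show q - 1 + 1 = q by omega, h1] at z1
    rw [zero_add, u1] at z0
    have hb : b = 0 := Complex.normSq_eq_zero.mp z0
    have ha : a = 0 := by simpa using Complex.normSq_eq_zero.mp z1
    rcases hab with h | h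
    · exact h ha
    · exact h hb

theorem card_roots_xP (W : ℕ → ℝ) {q : ℕ} (hq : 1 ≤ q)
    (hs : ∀ E, (xP W q).eval E = 0 → (derivative (xP W q)).eval E ≠ 0) :
    (xP W q).roots.toFinset.card = q := by
  obtain ⟨hm, hd⟩ := monic_xP W hq
  have hsp : (xP W q).Splits := by
    apply Splits.of_splits_map (algebraMap ℝ ℂ) (IsAlgClosed.splits _)
    intro z hz
    have h1 : aeval z (xP W q) = 0 := by
      have := (mem_roots'.mp hz).2
      rwa [IsRoot, eval_map, ← aeval_def] at this
    rw [aeval_xP] at h1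
    have h2 := im_eq_zero_of_disc W hq z h1
    exact ⟨z.re, by apply Complex.ext <;> simp [h2]⟩
  have hnd : (xP W q).roots.Nodup := by
    rw [Multiset.nodup_iff_count_le_one]
    intro t
    rw [count_roots]
    by_contra hlt
    push Not at hlt
    have := (one_lt_rootMultiplicity_iff_isRoot hm.ne_zero).mp hlt
    exact hs t this.1 this.2
  rw [Multiset.toFinset_card_of_nodup hnd, ← hsp.natDegree_eq_card_roots, hd]

end Pool.Agent.Lib.MP_73239e_mp
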