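import Pool.Agent.Lib.MP_73239e_mp.Count

set_option autoImplicit false

open Polynomial Filter Topology

namespace Pool.Agent.Lib.MP_73239e_mp

theorem flow_right (x x' : ℝ → ℝ) (hx : ∀ t, HasDerivAt x (x' t) t) (hc : Continuous x')
    (hcrit : ∀ t, x t ^ 2 ≤ 4 → x' t ≠ 0) {E : ℝ} (hE : x E ^ 2 ≤ 4) (hD : x E * x' E < 0)
    (hbig : ∃ t, E < t ∧ 4 < x t ^ 2) :
    ∃ z, E ≤ z ∧ x z = 0 ∧ ∀ s ∈ Set.Icc E z, x s ^ 2 ≤ 4 := by
  have hxc : Continuous x := continuous_iff_continuousAt.mpr fun t => (hx t).continuousAt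
  have hh : ∀ t, HasDerivAt (fun t => x t ^ 2) (2 * (x t * x' t)) t := by
    intro t
    have h1 : HasDerivAt (fun s => x s * x s) (x' t * x t + x t * x' t) t := (hx t).mul (hx t)
    have e1 : (fun s => x s ^ 2) = fun s => x s * x s := by funext s; ring
    have e2 : 2 * (x t * x' t) = x' t * x t + x t * x' t := by ring
    rw [e1, e2]; exact h1
  set T : Set ℝ := Set.Ici E ∩ {t | 0 ≤ x t * x' t} with hT
  have hTc : IsClosed T := isClosed_Ici.inter (isClosed_le continuous_const (hxc.mul hc))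
  have hTne : T.Nonempty := by
    obtain ⟨t, ht1, ht2⟩ := hbig
    obtain ⟨c, hc1, hc2⟩ := exists_hasDerivAt_eq_slope (fun t => x t ^ 2)
      (fun t => 2 * (x t * x' t)) ht1 (hxc.pow 2).continuousOn (fun s _ => hh s)
    refine ⟨c, hc1.1.le, ?_⟩
    have : 0 < (x t ^ 2 - x E ^ 2) / (t - E) := div_pos (by linarith) (by linarith)
    change 0 ≤ x c * x' c
    linarith
  have hTb : BddBelow T := ⟨E, fun t ht => ht.1⟩
  have hz := hTc.csInf_mem hTne hTb
  have hlt : ∀ s, E ≤ s → s < sInf T → x s * x' s < 0 := by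
    intro s h1 h2
    by_contra hn
    exact absurd (csInf_le hTb (show s ∈ T from ⟨h1, not_lt.mp hn⟩)) (not_le.mpr h2)
  have heq : x (sInf T) * x' (sInf T) = 0 := by
    obtain ⟨s, hs, hs'⟩ := intermediate_value_Icc hz.1 (hxc.mul hc).continuousOn
      (show (0 : ℝ) ∈ Set.Icc _ _ from ⟨hD.le, hz.2⟩)
    rcases lt_or_eq_of_le hs.2 with h | h
    · have := hlt s hs.1 h
      simp only [Pi.mul_apply] at hs'
      linarith
    · rw [← h]; exact hs'
  have hanti : AntitoneOn (fun t => x t ^ 2) (Set.Icc E (sInf T)) := by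
    apply antitoneOn_of_deriv_nonpos (convex_Icc _ _) (hxc.pow 2).continuousOn
    · exact fun s _ => (hh s).differentiableAt.differentiableWithinAt
    · intro s hs
      rw [interior_Icc] at hs
      change deriv (fun t => x t ^ 2) s ≤ 0
      rw [(hh s).deriv]
      have := hlt s hs.1.le hs.2
      linarith
  have hin : ∀ s ∈ Set.Icc E (sInf T), x s ^ 2 ≤ 4 := fun s hs =>
    le_trans (hanti ⟨le_rfl, hz.1⟩ hs hs.1) hE
  refine ⟨sInf T, hz.1, ?_, hin⟩
  rcases mul_eq_zero.mp heq with h | h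
  · exact h
  · exact absurd h (hcrit _ (hin _ ⟨hz.1, le_rfl⟩))

theorem band_to_root (x : ℝ[X]) (hd : 1 ≤ x.natDegree)
    (hcrit : ∀ E, (x.eval E) ^ 2 ≤ 4 → (derivative x).eval E ≠ 0) {E : ℝ}
    (hE : (x.eval E) ^ 2 ≤ 4) :
    ∃ z, x.eval z = 0 ∧ ∀ s ∈ Set.uIcc E z, (x.eval s) ^ 2 ≤ 4 := by
  have hdeg := natDegree_pos_iff_degree_pos.mp hd
  have big : ∀ t : ℝ, 3 ≤ |x.eval t| → 4 < (x.eval t) ^ 2 := by
    intro t ht
    have : (3 : ℝ) ^ 2 ≤ |x.eval t| ^ 2 := by gcongr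
    rw [sq_abs] at this
    linarith
  rcases lt_trichotomy (x.eval E * (derivative x).eval E) 0 with h | h | h
  · obtain ⟨t, ht1, ht2⟩ := (((x.abs_tendsto_atTop hdeg).eventually_ge_atTop 3).and
      (eventually_gt_atTop E)).exists
    obtain ⟨z, a, b, c⟩ := flow_right (fun t => x.eval t) (fun t => (derivative x).eval t)
      (fun t => x.hasDerivAt t) (derivative x).continuous hcrit hE h ⟨t, ht2, big t ht1⟩
    exact ⟨z, b, by rw [Set.uIcc_of_le a]; exact c⟩
  · rcases mul_eq_zero.mp h with h | h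
    · refine ⟨E, h, ?_⟩
      intro s hs
      rw [Set.uIcc_self, Set.mem_singleton_iff] at hs
      rw [hs]; exact hE
    · exact absurd h (hcrit E hE)
  · obtain ⟨t, ht1, ht2⟩ := (((x.abs_tendsto_atBot hdeg).eventually_ge_atTop 3).and
      (eventually_lt_atBot E)).exists
    obtain ⟨z, a, b, c⟩ := flow_right (fun t => x.eval (-t))
      (fun t => -((derivative x).eval (-t)))
      (fun t => by
        have h1 : HasDerivAt (fun t => x.eval (-t)) ((derivative x).eval (-t) * (-1)) t :=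
          (x.hasDerivAt (-t)).comp t (hasDerivAt_neg t)
        rw [mul_neg_one] at h1
        exact h1)
      ((derivative x).continuous.comp continuous_neg).neg
      (fun t ht => neg_ne_zero.mpr (hcrit _ ht)) (E := -E) (by simpa using hE)
      (by simp only [neg_neg]; linarith) ⟨-t, by linarith, by simpa using big t ht1⟩
    refine ⟨-z, b, ?_⟩
    intro s hs
    rw [Set.uIcc_of_ge (by linarith)] at hs
    have := c (-s) ⟨by linarith [hs.2], by linarith [hs.1]⟩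
    simpa using this

/-- A colouring that separates the bands. -/
theorem big_lower (x : ℝ[X]) (hd : 1 ≤ x.natDegree)
    (hcrit : ∀ E, (x.eval E) ^ 2 ≤ 4 → (derivative x).eval E ≠ 0) (y : ℝ) :
    ∃ η > 0, ∃ c : ℝ → ℕ,
      (∀ s, ((x.eval s) ^ 2 ≤ 4 ∨ (x.eval s) ^ 2 = y) → ∀ a, |a - s| ≤ η → c a = c s) ∧
      Set.InjOn c x.roots.toFinset ∧
      ∀ z ∈ x.roots.toFinset, ∀ t, |t - z| ≤ η → (x.eval t) ^ 2 ≤ 4 := by
  classical
  have hxc : Continuous fun E => x.eval E := x.continuous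
  set S : Set ℝ := {E | (x.eval E) ^ 2 ≤ 4 ∨ (x.eval E) ^ 2 = y} with hS
  have hSc : IsClosed S :=
    (isClosed_le (hxc.pow 2) continuous_const).union (isClosed_eq (hxc.pow 2) continuous_const)
  set Z := x.roots.toFinset with hZ
  have hZ0 : ∀ E ∈ Z, x.eval E = 0 := fun E hE => (mem_roots'.mp (Multiset.mem_toFinset.mp hE)).2
  have cut : ∀ E E' : ℝ, ∃ t, E ∈ Z → E' ∈ Z → E < E' → E < t ∧ t < E' ∧ t ∉ S := by
    intro E E'
    by_cases h : E ∈ Z ∧ E' ∈ Z ∧ E < E'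
    swap
    · exact ⟨0, fun a b c => absurd ⟨a, b, c⟩ h⟩
    obtain ⟨a, b, c⟩ := h
    obtain ⟨t0, ht0, hd0⟩ := exists_deriv_eq_zero c hxc.continuousOn
      (by simp only [hZ0 E a, hZ0 E' b])
    rw [Polynomial.deriv] at hd0
    have h4 : 4 < (x.eval t0) ^ 2 := by
      by_contra hn
      exact hcrit t0 (not_lt.mp hn) hd0
    have hO : IsOpen (Set.Ioo E E' ∩ {t | 4 < (x.eval t) ^ 2}) :=
      isOpen_Ioo.inter (isOpen_lt continuous_const (by fun_prop))
    have hinf := infinite_of_mem_nhds t0 (hO.mem_nhds ⟨ht0, h4⟩)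
    obtain ⟨t, ht, ht'⟩ := hinf.exists_notMem_finset (x ^ 2 - C y).roots.toFinset
    refine ⟨t, fun _ _ _ => ⟨ht.1.1, ht.1.2, ?_⟩⟩
    rintro (h | h)
    · exact absurd ht.2 (not_lt.mpr h)
    · apply ht'
      rw [Multiset.mem_toFinset, mem_roots (level_ne_zero hd y).1]
      simp [h]
  choose t ht using cut
  set T : Finset ℝ := ((Z ×ˢ Z).filter fun z => z.1 < z.2).image fun z => t z.1 z.2 with hT
  have hTS : ∀ s ∈ T, s ∉ S := by
    intro s hs
    obtain ⟨z, hz, rfl⟩ := Finset.mem_image.mp hs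
    rw [Finset.mem_filter, Finset.mem_product] at hz
    exact (ht _ _ hz.1.1 hz.1.2 hz.2).2.2
  have e1 : ∀ᶠ η in 𝓝[>] (0 : ℝ), ∀ u ∈ T, ∀ s, |u - s| ≤ η → s ∉ S := by
    rw [eventually_all_finset]
    intro u hu
    obtain ⟨ρ, hρ, hb⟩ := Metric.isOpen_iff.mp hSc.isOpen_compl u (hTS u hu)
    filter_upwards [Ioo_mem_nhdsGT hρ] with η hη s hs
    apply hb
    rw [Metric.mem_ball, Real.dist_eq, abs_sub_comm]
    exact lt_of_le_of_lt hs hη.2
  have e2 : ∀ᶠ η in 𝓝[>] (0 : ℝ), ∀ z ∈ Z, ∀ s, |s - z| ≤ η → (x.eval s) ^ 2 ≤ 4 := by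
    rw [eventually_all_finset]
    intro z hz
    have hO : IsOpen {s : ℝ | (x.eval s) ^ 2 < 4} := isOpen_lt (by fun_prop) continuous_const
    obtain ⟨ρ, hρ, hb⟩ := Metric.isOpen_iff.mp hO z (by
      change (x.eval z) ^ 2 < 4
      rw [hZ0 z hz]; norm_num)
    filter_upwards [Ioo_mem_nhdsGT hρ] with η hη s hs
    have : s ∈ Metric.ball z ρ := by
      rw [Metric.mem_ball, Real.dist_eq]
      exact lt_of_le_of_lt hs hη.2
    exact le_of_lt (hb this)
  obtain ⟨η, ⟨h1, h2⟩, hη⟩ := ((e1.and e2).and self_mem_nhdsWithin).exists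
  have hη0 : 0 < η := hη
  set c : ℝ → ℕ := fun a => (T.filter fun s => s < a).card with hc
  have same : ∀ s ∈ S, ∀ a, |a - s| ≤ η → c a = c s := by
    intro s hs a ha
    simp only [hc]
    congr 1
    apply Finset.filter_congr
    intro u hu
    have h3 : η < |u - s| := by
      by_contra hn
      exact h1 u hu s (not_lt.mp hn) hs
    rw [abs_le] at ha
    rcases lt_abs.mp h3 with h | h
    · constructor <;> intro _ <;> linarith
    · constructor <;> intro _ <;> linarith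
  have mono : ∀ E ∈ Z, ∀ E' ∈ Z, E < E' → c E < c E' := by
    intro E hE E' hE' h
    apply Finset.card_lt_card
    rw [Finset.ssubset_iff_of_subset (Finset.monotone_filter_right _ fun u _ hu => hu.trans h)]
    obtain ⟨a, b, -⟩ := ht E E' hE hE' h
    have hm : t E E' ∈ T := Finset.mem_image.mpr ⟨(E, E'), by
      rw [Finset.mem_filter, Finset.mem_product]; exact ⟨⟨hE, hE'⟩, h⟩, rfl⟩
    refine ⟨t E E', Finset.mem_filter.mpr ⟨hm, b⟩, fun hn => ?_⟩
    exact absurd (Finset.mem_filter.mp hn).2 (not_lt.mpr a.le)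
  refine ⟨η, hη0, c, same, ?_, h2⟩
  intro E hE E' hE' h
  rcases lt_trichotomy E E' with l | l | l
  · exact absurd h (mono E hE E' hE' l).ne
  · exact l
  · exact absurd h (mono E' hE' E hE l).ne'

/-- The set `A` lies near the bands and the level set, and comes near every point of the bands. -/
def Near (x : ℝ[X]) (y δ : ℝ) (A : Set ℝ) : Prop :=
  (∀ E ∈ A, ∃ E', ((x.eval E') ^ 2 ≤ 4 ∨ (x.eval E') ^ 2 = y) ∧ |E - E'| ≤ δ) ∧
    (∀ E, (x.eval E) ^ 2 ≤ 4 → ∃ E' ∈ A, |E' - E| ≤ δ)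

theorem core (x1 x2 : ℝ[X]) {q1 q2 : ℕ} (hq : q2 < q1) (hq2 : 1 ≤ q2)
    (hd1 : x1.natDegree = q1) (hd2 : x2.natDegree = q2)
    (hcard : x1.roots.toFinset.card = q1)
    (hcrit1 : ∀ E, (x1.eval E) ^ 2 ≤ 4 → (derivative x1).eval E ≠ 0)
    (hcrit2 : ∀ E, (x2.eval E) ^ 2 ≤ 4 → (derivative x2).eval E ≠ 0) (y1 y2 : ℝ) :
    ∃ κ > 0, ∀ ε > 0, ∀ (A B : Set ℝ) (g : ℝ → ℝ), Near x1 y1 κ A → Near x2 y2 (ε / 4) B →
      g '' B = A → (∀ b ∈ B, ∀ b' ∈ B, |b - b'| ≤ ε → |g b - g b'| ≤ κ) → False := by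
  classical
  obtain ⟨η, hη, c, same, hinj, hband⟩ := big_lower x1 (by omega) hcrit1 y1
  set N : ℕ := 2 * q2 + 1 with hN
  have hN0 : (1 : ℝ) ≤ N := by
    have : 1 ≤ N := by omega
    exact_mod_cast this
  set σ : ℝ := η / (2 * N) with hσ
  have hσ0 : 0 < σ := by positivity
  have hσN : N * σ = η / 2 := by rw [hσ]; field_simp
  have hση : σ ≤ η / 2 := by nlinarith
  refine ⟨σ / 4, by positivity, ?_⟩
  intro ε hε A B g hA hB hg hmod
  have hm : ∀ b ∈ B, g b ∈ A := fun b hb => hg ▸ Set.mem_image_of_mem g hb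
  have hcol : ∀ b ∈ B, ∀ b' ∈ B, |b - b'| ≤ ε → c (g b) = c (g b') := by
    intro b hb b' hb' h
    obtain ⟨s, hs, hs'⟩ := hA.1 _ (hm b hb)
    have := hmod b hb b' hb' h
    rw [same s hs (g b) (by linarith), same s hs (g b') ?_]
    rw [abs_le] at *
    constructor <;> linarith
  have h2' : ∀ E, ∃ E', (x2.eval E) ^ 2 ≤ 4 → E' ∈ B ∧ |E' - E| ≤ ε / 4 := by
    intro E
    by_cases h : (x2.eval E) ^ 2 ≤ 4
    · obtain ⟨E', a, b⟩ := hB.2 E h
      exact ⟨E', fun _ => ⟨a, b⟩⟩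
    · exact ⟨0, fun h' => absurd h' h⟩
  choose π hπ using h2'
  have chain : ∀ l r : ℝ, l ≤ r → (∀ s ∈ Set.Icc l r, (x2.eval s) ^ 2 ≤ 4) →
      c (g (π r)) = c (g (π l)) := by
    intro l r hlr hin
    refine chain_const (fun s => c (g (π s))) (d := ε / 2) (by positivity) hlr ?_
    intro s hs s' hs' h
    obtain ⟨a1, a2⟩ := hπ s (hin s hs)
    obtain ⟨b1, b2⟩ := hπ s' (hin s' hs')
    apply hcol _ a1 _ b1
    rw [abs_le] at *
    constructor <;> linarith
  have hx20 : x2 ≠ 0 := by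
    intro h0
    rw [h0, natDegree_zero] at hd2
    omega
  have key : ∀ z ∈ x1.roots.toFinset, ∃ w ∈ x2.roots.toFinset, c (g (π w)) = c z := by
    intro z hz
    have hz0 : x1.eval z = 0 := (mem_roots'.mp (Multiset.mem_toFinset.mp hz)).2
    have pts : ∀ j : ℕ, ∃ b, j < N → b ∈ B ∧ |g b - (z + j * σ)| ≤ σ / 4 := by
      intro j
      by_cases hj : j < N
      swap
      · exact ⟨0, fun h => absurd h hj⟩
      have hj' : (j : ℝ) ≤ N := by exact_mod_cast hj.le
      have hj0 : (0 : ℝ) ≤ j * σ := by positivity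
      have : (j : ℝ) * σ ≤ η / 2 := by nlinarith
      obtain ⟨a, ha, ha'⟩ := hA.2 (z + j * σ) (hband z hz _ (by
        rw [abs_le]; constructor <;> linarith))
      rw [← hg] at ha
      obtain ⟨b, hb, rfl⟩ := ha
      exact ⟨b, fun _ => ⟨hb, ha'⟩⟩
    choose b hb using pts
    have colb : ∀ j < N, c (g (b j)) = c z := by
      intro j hj
      have hj' : (j : ℝ) ≤ N := by exact_mod_cast hj.le
      have hj0 : (0 : ℝ) ≤ j * σ := by positivity
      have : (j : ℝ) * σ ≤ η / 2 := by nlinarith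
      apply same z (Or.inl (by rw [hz0]; norm_num))
      have := (hb j hj).2
      rw [abs_le] at *
      constructor <;> linarith
    by_cases hcase : ∃ j < N, ∃ E, (x2.eval E) ^ 2 ≤ 4 ∧ |b j - E| ≤ ε / 4
    · obtain ⟨j, hj, E, hE, hE'⟩ := hcase
      obtain ⟨w, hw, hw'⟩ := band_to_root x2 (by omega) hcrit2 hE
      refine ⟨w, by rw [Multiset.mem_toFinset, mem_roots hx20]; exact hw, ?_⟩
      have e1 : c (g (π w)) = c (g (π E)) := by
        rcases le_total E w with h | h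
        · exact chain E w h (by rw [← Set.uIcc_of_le h]; exact hw')
        · exact (chain w E h (by rw [← Set.uIcc_of_ge h]; exact hw')).symm
      rw [e1, ← colb j hj]
      obtain ⟨a1, a2⟩ := hπ E hE
      apply hcol _ a1 _ (hb j hj).1
      rw [abs_le] at *
      constructor <;> linarith
    · exfalso
      have lev : ∀ j : ℕ, ∃ E, j < N →
          E ∈ (x2 ^ 2 - C y2).roots.toFinset ∧ |b j - E| ≤ ε / 4 := by
        intro j
        by_cases hj : j < N
        swap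
        · exact ⟨0, fun h => absurd h hj⟩
        obtain ⟨E, hE | hE, hE'⟩ := hB.1 _ (hb j hj).1
        · exact absurd ⟨j, hj, E, hE, hE'⟩ hcase
        · refine ⟨E, fun _ => ⟨?_, hE'⟩⟩
          rw [Multiset.mem_toFinset, mem_roots (level_ne_zero (by omega) y2).1]
          simp [hE]
      choose f hf using lev
      have hcardF : (x2 ^ 2 - C y2).roots.toFinset.card < (Finset.range N).card := by
        have := le_trans (Multiset.toFinset_card_le _) (le_trans (card_roots' (x2 ^ 2 - C y2))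
          (level_ne_zero (x := x2) (by omega) y2).2)
        rw [Finset.card_range]
        omega
      obtain ⟨i, hi, j, hj, hij, hfij⟩ := Finset.exists_ne_map_eq_of_card_lt_of_maps_to hcardF
        (f := f) (fun j hj => (hf j (Finset.mem_range.mp hj)).1)
      rw [Finset.mem_range] at hi hj
      have a1 := (hf i hi).2
      have a2 := (hf j hj).2
      rw [hfij] at a1
      have a3 := hmod _ (hb i hi).1 _ (hb j hj).1 (by
        rw [abs_le] at *
        constructor <;> linarith)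
      have a4 := (hb i hi).2
      have a5 := (hb j hj).2
      rw [abs_le] at a3 a4 a5
      rcases lt_or_gt_of_ne hij with h | h
      · have : (i : ℝ) + 1 ≤ j := by exact_mod_cast h
        nlinarith
      · have : (j : ℝ) + 1 ≤ i := by exact_mod_cast h
        nlinarith
  have key2 : ∀ z, ∃ w, z ∈ x1.roots.toFinset → w ∈ x2.roots.toFinset ∧ c (g (π w)) = c z := by
    intro z
    by_cases hz : z ∈ x1.roots.toFinset
    · obtain ⟨w, a, b⟩ := key z hz
      exact ⟨w, fun _ => ⟨a, b⟩⟩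
    · exact ⟨0, fun h => absurd h hz⟩
  choose φ hφ using key2
  have := Finset.card_le_card_of_injOn φ (s := x1.roots.toFinset) (t := x2.roots.toFinset)
    (fun z hz => (hφ z hz).1) (by
      intro z hz z' hz' h
      apply hinj hz hz'
      rw [← (hφ z hz).2, ← (hφ z' hz').2, h])
  have h3 := le_trans (Multiset.toFinset_card_le x2.roots) (card_roots' x2)
  omega

theorem spec_perturb {V V' : ℤ → ℝ} {K K' τ : ℝ} (hV : ∀ n, |V n| ≤ K) (hV' : ∀ n, |V' n| ≤ K')
    {H H' : L2 →L[ℂ] L2} (hH : IsSchr V H) (hH' : IsSchr V' H') (hτ : 0 < τ)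
    (hd : ∀ n, |V' n - V n| ≤ τ) {E : ℝ} (hE : E ∈ Spec H) :
    ∃ E' ∈ Spec H', |E' - E| ≤ 2 * τ := by
  have h1 : ∃ ψ : L2, ‖H ψ - (E : ℂ) • ψ‖ ^ 2 < τ ^ 2 * ‖ψ‖ ^ 2 := by
    by_contra hn
    push Not at hn
    exact not_mem_Spec_of_bdd_below (hH.isSelfAdjoint hV) (by positivity) hn hE
  obtain ⟨ψ, hψ⟩ := h1
  have hψ0 : ψ ≠ 0 := by
    rintro rfl
    simp at hψ
  have h2 : ‖H ψ - (E : ℂ) • ψ‖ ≤ τ * ‖ψ‖ := by
    apply le_of_sq_le_sq _ (by positivity)
    rw [mul_pow]; exact hψ.le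
  have h3 : H' ψ - (E : ℂ) • ψ = (H ψ - (E : ℂ) • ψ) + mulL (fun n => V' n - V n) τ hd ψ := by
    apply lp.ext
    funext n
    have e0 : (H' ψ - (E : ℂ) • ψ) n = H' ψ n - (E : ℂ) * ψ n := rfl
    have e1 : ((H ψ - (E : ℂ) • ψ) + mulL (fun n => V' n - V n) τ hd ψ) n
        = (H ψ n - (E : ℂ) * ψ n) + ((V' n - V n : ℝ) : ℂ) * ψ n := rfl
    rw [e0, e1, hH ψ n, hH' ψ n]
    push_cast
    ring
  apply exists_mem_Spec_of_approx (hH'.isSelfAdjoint hV') hψ0
  rw [h3]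
  have h4 := norm_mulL (fun n => V' n - V n) τ hd ψ
  have h5 := norm_add_le (H ψ - (E : ℂ) • ψ) (mulL (fun n => V' n - V n) τ hd ψ)
  linarith

theorem abs_pot_sub (lam lam' α : ℝ) (n : ℤ) : |pot lam' α n - pot lam α n| ≤ |lam' - lam| := by
  unfold pot
  split_ifs
  · exact le_rfl
  · simp

/-- The approximation by the periodic model is locally uniform in the coupling. -/
theorem near_rat {lam : ℝ} (hlam : 0 < lam) {p q : ℕ} (hp : 0 < p) (hpq : p < q)
    (hc : Nat.Coprime p q) {δ : ℝ} (hδ : 0 < δ) :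
    ∀ᶠ z : ℝ × ℝ in 𝓝 ((p : ℝ) / q, lam), Irrational z.1 →
      ∀ H : L2 →L[ℂ] L2, IsSchr (pot z.2 z.1) H →
        Near (xR lam p q) (4 + lam ^ 2) δ (Spec H) := by
  obtain ⟨ρ, hρ, h⟩ := approx_rat hlam hp hpq hc (show 0 < δ / 2 by positivity)
  have hq : (0 : ℝ) < q := by
    have : 0 < q := by omega
    positivity
  have r0 : (0 : ℝ) < p / q := by positivity
  have r1 : (p : ℝ) / q < 1 := by
    rw [div_lt_one hq]; exact_mod_cast hpq
  have e1 : ∀ᶠ α : ℝ in 𝓝 ((p : ℝ) / q), (0 < α ∧ α < 1) ∧ |α - p / q| < ρ := by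
    refine ((lt_mem_nhds r0).and (gt_mem_nhds r1)).and ?_
    filter_upwards [Metric.ball_mem_nhds ((p : ℝ) / q) hρ] with α hα
    rwa [Metric.mem_ball, Real.dist_eq] at hα
  have e2 : ∀ᶠ l : ℝ in 𝓝 lam, 0 < l ∧ |l - lam| < δ / 4 := by
    refine (lt_mem_nhds hlam).and ?_
    filter_upwards [Metric.ball_mem_nhds lam (show 0 < δ / 4 by positivity)] with α hα
    rwa [Metric.mem_ball, Real.dist_eq] at hα
  filter_upwards [e1.prod_nhds e2]
  rintro ⟨α, l⟩ ⟨⟨⟨a0, a1⟩, a2⟩, l0, l1⟩ hirr H hH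
  simp only at a0 a1 a2 l0 l1 hirr hH
  obtain ⟨H0, hH0⟩ := exists_isSchr _ lam (abs_pot_le hlam.le α)
  have hne : α ≠ p / q := by
    intro h0
    apply hirr
    exact ⟨(p : ℚ) / q, by rw [h0]; push_cast; rfl⟩
  obtain ⟨b1, b2⟩ := h α a0 a1 hne a2 H0 hH0
  have d1 : ∀ n, |pot l α n - pot lam α n| ≤ δ / 4 := fun n => (abs_pot_sub lam l α n).trans l1.le
  have d2 : ∀ n, |pot lam α n - pot l α n| ≤ δ / 4 := fun n => by rw [abs_sub_comm]; exact d1 n
  constructor
  · intro E hE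
    obtain ⟨E1, c1, c2⟩ := spec_perturb (abs_pot_le l0.le α) (abs_pot_le hlam.le α) hH hH0
      (by positivity) d2 hE
    obtain ⟨E2, c3, c4⟩ := b1 E1 c1
    refine ⟨E2, c3, ?_⟩
    rw [abs_le] at *
    constructor <;> linarith
  · intro E hE
    obtain ⟨E1, c1, c2⟩ := b2 E hE
    obtain ⟨E2, c3, c4⟩ := spec_perturb (abs_pot_le hlam.le α) (abs_pot_le l0.le α) hH0 hH
      (by positivity) d1 c1
    refine ⟨E2, c3, ?_⟩
    rw [abs_le] at *
    constructor <;> linarith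

/-- The Gauss map. -/
noncomputable def gauss (α : ℝ) : ℝ := Int.fract α⁻¹

theorem irrational_gauss {α : ℝ} (h : Irrational α) : Irrational (gauss α) := by
  unfold gauss
  rw [Int.fract]
  exact h.inv.sub_intCast _

theorem irrational_iter {α : ℝ} (h : Irrational α) (k : ℕ) : Irrational (gauss^[k] α) := by
  induction k with
  | zero => exact h
  | succ k ih => rw [Function.iterate_succ_apply']; exact irrational_gauss ih

theorem iter_mem {α : ℝ} (h : Irrational α) (h0 : 0 < α) (h1 : α < 1) (k : ℕ) :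
    0 < gauss^[k] α ∧ gauss^[k] α < 1 := by
  cases k with
  | zero => exact ⟨h0, h1⟩
  | succ k =>
    have hi := irrational_iter h (k + 1)
    rw [Function.iterate_succ_apply'] at hi ⊢
    refine ⟨lt_of_le_of_ne (Int.fract_nonneg _) ?_, Int.fract_lt_one _⟩
    intro h2
    exact hi.ne_zero h2.symm

theorem continuousAt_iter {y : ℝ} (k : ℕ) (h : ∀ i ≤ k, 0 < gauss^[i] y) :
    ContinuousAt (gauss^[k]) y := by
  induction k with
  | zero => exact continuousAt_id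
  | succ k ih =>
    rw [Function.iterate_succ']
    refine ContinuousAt.comp ?_ (ih fun i hi => h i (by omega))
    have h1 := h k (by omega)
    have h2 := h (k + 1) le_rfl
    rw [Function.iterate_succ_apply'] at h2
    have h3 : (gauss^[k] y)⁻¹ ≠ ⌊(gauss^[k] y)⁻¹⌋ := by
      intro h4
      unfold gauss at h2 h4
      rw [Int.fract] at h2
      linarith
    exact (continuousAt_fract h3).comp (continuousAt_inv₀ h1.ne')

theorem iter_rat (k : ℕ) {p q : ℕ} (hp : 0 < p) (hpq : p < q) (hc : Nat.Coprime p q)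
    (h : ∀ i ≤ k, 0 < gauss^[i] ((p : ℝ) / q)) :
    ∃ p' q' : ℕ, 0 < p' ∧ p' < q' ∧ Nat.Coprime p' q' ∧ q' + k ≤ q ∧
      gauss^[k] ((p : ℝ) / q) = (p' : ℝ) / q' := by
  induction k with
  | zero => exact ⟨p, q, hp, hpq, hc, le_rfl, rfl⟩
  | succ k ih =>
    obtain ⟨p', q', a1, a2, a3, a4, a5⟩ := ih fun i hi => h i (by omega)
    have h2 := h (k + 1) le_rfl
    rw [Function.iterate_succ_apply', a5] at h2 ⊢
    have e : gauss ((p' : ℝ) / q') = ((q' % p' : ℕ) : ℝ) / p' := by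
      unfold gauss
      rw [inv_div, Int.fract_div_natCast_eq_div_natCast_mod]
    rw [e] at h2
    refine ⟨q' % p', p', ?_, Nat.mod_lt _ a1, ?_, by omega, e⟩
    · by_contra hn
      have : q' % p' = 0 := by omega
      rw [this] at h2
      simp at h2
    · rw [Nat.Coprime, ← Nat.gcd_rec]
      exact a3

/-- No map with modulus at level `L` between the two spectra. -/
def GoodM (ω : ℝ → ℝ) (L j k : ℕ) (α : ℝ) (l : ℝ × ℝ) : Prop :=
  ∀ H₁ H₂ : L2 →L[ℂ] L2, IsSchr (pot l.1 (gauss^[j] α)) H₁ → IsSchr (pot l.2 (gauss^[k] α)) H₂ →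
    ∀ g : ℝ → ℝ, g '' Spec H₂ = Spec H₁ →
      (∀ b ∈ Spec H₂, ∀ b' ∈ Spec H₂, b ≠ b' → |b - b'| < 1 / (L + 1) →
        |g b - g b'| ≤ L * |ω (|b - b'|)|) → False

theorem goodM_near {ω : ℝ → ℝ} (hω : Tendsto ω (𝓝[>] 0) (𝓝 0)) (L : ℕ) {j k : ℕ} (hjk : j < k)
    {p q : ℕ} (hp : 0 < p) (hpq : p < q) (hc : Nat.Coprime p q)
    (h : ∀ i ≤ k, 0 < gauss^[i] ((p : ℝ) / q)) {l : ℝ × ℝ} (hl1 : 0 < l.1) (hl2 : 0 < l.2) :
    ∀ᶠ z : ℝ × (ℝ × ℝ) in 𝓝 ((p : ℝ) / q, l), Irrational z.1 → GoodM ω L j k z.1 z.2 := by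
  obtain ⟨p1, q1, a1, a2, a3, -, a5⟩ := iter_rat j hp hpq hc fun i hi => h i (by omega)
  obtain ⟨d, rfl⟩ : ∃ d, k = (d + 1) + j := ⟨k - j - 1, by omega⟩
  obtain ⟨p2, q2, b1, b2, b3, b4, b5⟩ := iter_rat (d + 1) a1 a2 a3 (by
    intro i hi
    rw [← a5, ← Function.iterate_add_apply]
    exact h _ (by omega))
  rw [← a5, ← Function.iterate_add_apply] at b5
  have M1 := model_cw hl1.le a1 a2 a3
  have M2 := model_cw hl2.le b1 b2 b3
  obtain ⟨κ, hκ, hcore⟩ := core (xR l.1 p1 q1) (xR l.2 p2 q2) (q1 := q1) (q2 := q2) (by omega)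
    (by omega) (monic_xP _ (by omega)).2 (monic_xP _ (by omega)).2
    (card_roots_xP _ (by omega) fun E hE => M1.deriv_ne hl1 (by omega) E (by rw [hE]; norm_num))
    (M1.deriv_ne hl1 (by omega)) (M2.deriv_ne hl2 (by omega)) (4 + l.1 ^ 2) (4 + l.2 ^ 2)
  obtain ⟨ε, hε, hε1, hε2⟩ : ∃ ε : ℝ, 0 < ε ∧ ε < 1 / (L + 1) ∧
      ∀ t, 0 < t → t ≤ ε → L * |ω t| ≤ κ := by
    obtain ⟨δ, hδ, hb⟩ := Metric.tendsto_nhdsWithin_nhds.mp hω (κ / (L + 1)) (by positivity)
    refine ⟨min (δ / 2) (1 / (L + 1) / 2), by positivity, ?_, ?_⟩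
    · have : (0 : ℝ) < 1 / (L + 1) := by positivity
      exact lt_of_le_of_lt (min_le_right _ _) (by linarith)
    · intro t ht ht'
      have h1 := hb (x := t) ht (by
        rw [Real.dist_eq, sub_zero, abs_of_pos ht]
        exact lt_of_le_of_lt (ht'.trans (min_le_left _ _)) (by linarith))
      rw [Real.dist_eq, sub_zero, lt_div_iff₀ (by positivity)] at h1
      nlinarith [abs_nonneg (ω t)]
  have c1 : ContinuousAt (fun z : ℝ × (ℝ × ℝ) => (gauss^[j] z.1, z.2.1)) ((p : ℝ) / q, l) :=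
    (ContinuousAt.comp (f := fun z : ℝ × (ℝ × ℝ) => z.1)
      (continuousAt_iter j fun i hi => h i (by omega)) continuousAt_fst).prodMk (by fun_prop)
  have c2 : ContinuousAt (fun z : ℝ × (ℝ × ℝ) => (gauss^[d + 1 + j] z.1, z.2.2))
      ((p : ℝ) / q, l) :=
    (ContinuousAt.comp (f := fun z : ℝ × (ℝ × ℝ) => z.1)
      (continuousAt_iter _ h) continuousAt_fst).prodMk (by fun_prop)
  have n1 := near_rat hl1 a1 a2 a3 hκ
  have n2 := near_rat hl2 b1 b2 b3 (show 0 < ε / 4 by positivity)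
  rw [← a5] at n1
  rw [← b5] at n2
  filter_upwards [c1.eventually n1, c2.eventually n2] with z z1 z2 hirr H₁ H₂ hH₁ hH₂ g hg hmod
  refine hcore ε hε _ _ g (z1 (irrational_iter hirr _) H₁ hH₁)
    (z2 (irrational_iter hirr _) H₂ hH₂) hg ?_
  intro b hb b' hb' hbb
  by_cases e : b = b'
  · rw [e, sub_self, abs_zero]; exact hκ.le
  · exact (hmod b hb b' hb' e (lt_of_le_of_lt hbb hε1)).trans
      (hε2 _ (abs_pos.mpr (sub_ne_zero.mpr e)) hbb)

theorem goodM_residual {ω : ℝ → ℝ} (hω : Tendsto ω (𝓝[>] 0) (𝓝 0)) (L : ℕ) {j k : ℕ}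
    (hjk : j < k) {K : Set (ℝ × ℝ)} (hK : IsCompact K) (hK0 : ∀ l ∈ K, 0 < l.1 ∧ 0 < l.2) :
    ∀ᶠ α in residual ℝ, 0 < α → α < 1 → Irrational α → ∀ l ∈ K, GoodM ω L j k α l := by
  refine mem_of_superset (residual_of_dense_open isOpen_interior ?_) interior_subset
  rw [dense_iff_exists_between]
  intro a b hab
  obtain ⟨α0, hirr, h1, h2⟩ := exists_irrational_btwn hab
  rcases lt_trichotomy α0 0 with c | c | c
  · refine ⟨α0, mem_interior_iff_mem_nhds.mpr ?_, h1, h2⟩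
    filter_upwards [gt_mem_nhds c] with α hα h0
    exact absurd h0 (not_lt.mpr hα.le)
  · exact absurd c hirr.ne_zero
  rcases lt_trichotomy α0 1 with c' | c' | c'
  rotate_left
  · exact absurd c' hirr.ne_one
  · refine ⟨α0, mem_interior_iff_mem_nhds.mpr ?_, h1, h2⟩
    filter_upwards [lt_mem_nhds c'] with α hα _ h0
    exact absurd h0 (not_lt.mpr hα.le)
  have e1 : ∀ᶠ α in 𝓝 α0, ∀ i ∈ Finset.range (k + 1), 0 < gauss^[i] α := by
    rw [eventually_all_finset]
    intro i _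
    exact (continuousAt_iter i fun i' _ => (iter_mem hirr c c' i').1).eventually
      (lt_mem_nhds (iter_mem hirr c c' i).1)
  have e2 := (e1.and ((lt_mem_nhds c).and (gt_mem_nhds c'))).and
    ((lt_mem_nhds h1).and (gt_mem_nhds h2))
  obtain ⟨r, ⟨r1, r2, r3⟩, r4, r5⟩ : ∃ r : ℚ, ((∀ i ∈ Finset.range (k + 1), 0 < gauss^[i] (r : ℝ))
      ∧ 0 < (r : ℝ) ∧ (r : ℝ) < 1) ∧ a < r ∧ (r : ℝ) < b := by
    obtain ⟨_, hr, r, rfl⟩ := mem_closure_iff_nhds.mp (Rat.denseRange_cast (𝕜 := ℝ) α0) _ e2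
    exact ⟨r, hr⟩
  have hr0 : 0 < r := by exact_mod_cast r2
  have hr1 : r < 1 := by exact_mod_cast r3
  have hnum : 0 < r.num := Rat.num_pos.mpr hr0
  have hcast : ((r.num.natAbs : ℕ) : ℤ) = r.num := Int.natAbs_of_nonneg hnum.le
  have hlt : r.num.natAbs < r.den := by
    have := Rat.num_lt_denom_iff.mpr hr1
    omega
  have e : (r : ℝ) = (r.num.natAbs : ℕ) / r.den := by
    rw [Rat.cast_def, ← hcast]
    simp
  refine ⟨r, mem_interior_iff_mem_nhds.mpr ?_, r4, r5⟩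
  have key := hK.eventually_forall_of_forall_eventually (x₀ := (r : ℝ))
    (P := fun α l => Irrational α → GoodM ω L j k α l) (by
      intro l hl
      rw [e]
      exact goodM_near hω L hjk (by omega) hlt r.reduced
        (fun i hi => by rw [← e]; exact r1 i (Finset.mem_range.mpr (by omega)))
        (hK0 l hl).1 (hK0 l hl).2)
  filter_upwards [key] with α hα _ _ hi l hl
  exact hα l hl hi

theorem generic {ω : ℝ → ℝ} (hω : Tendsto ω (𝓝[>] 0) (𝓝 0)) :
    ∀ᶠ α in residual ℝ, 0 < α → α < 1 → Irrational α ∧ ∀ j k : ℕ, j < k → ∀ l : ℝ × ℝ,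
      0 < l.1 → 0 < l.2 → ∀ L : ℕ, GoodM ω L j k α l := by
  have h1 : ∀ᶠ α in residual ℝ, ∀ i : ℕ × ℕ × ℕ × ℕ, i.1 < i.2.1 → 0 < α → α < 1 → Irrational α →
      ∀ l ∈ Set.Icc (1 / ((i.2.2.2 : ℝ) + 1)) (i.2.2.2 + 1) ×ˢ
        Set.Icc (1 / ((i.2.2.2 : ℝ) + 1)) (i.2.2.2 + 1), GoodM ω i.2.2.1 i.1 i.2.1 α l := by
    rw [eventually_countable_forall]
    rintro ⟨j, k, L, n⟩
    by_cases hjk : j < k
    · have := goodM_residual hω L hjk
        (K := Set.Icc (1 / ((n : ℝ) + 1)) (n + 1) ×ˢ Set.Icc (1 / ((n : ℝ) + 1)) (n + 1))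
        (isCompact_Icc.prod isCompact_Icc) (fun l hl =>
          ⟨lt_of_lt_of_le (by positivity) hl.1.1, lt_of_lt_of_le (by positivity) hl.2.1⟩)
      filter_upwards [this] with α hα _
      exact hα
    · exact Eventually.of_forall fun α h => absurd h hjk
  filter_upwards [h1, eventually_residual_irrational] with α hα hirr h0 h1
  refine ⟨hirr, fun j k hjk l l1 l2 L => ?_⟩
  obtain ⟨n, hn⟩ := exists_nat_ge (l.1 + l.2 + 1 / l.1 + 1 / l.2)
  have i1 : 0 < 1 / l.1 := by positivity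
  have i2 : 0 < 1 / l.2 := by positivity
  refine hα (j, k, L, n) hjk h0 h1 hirr l ⟨⟨?_, ?_⟩, ?_, ?_⟩
  · rw [one_div_le (by positivity) l1]; simp only; linarith
  · simp only; linarith
  · rw [one_div_le (by positivity) l2]; simp only; linarith
  · simp only; linarith

end Pool.Agent.Lib.MP_73239e_mp
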