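import Mathlib

set_option autoImplicit false

open scoped ComplexConjugate InnerProductSpace

namespace Pool.Agent.Lib.MP_73239e_mp

/-- The Hilbert space of square summable complex sequences on the integers. -/
abbrev L2 : Type := lp (fun _ : ℤ => ℂ) 2

/-- `H` acts as the discrete Schroedinger operator with potential `V`. -/
def IsSchr (V : ℤ → ℝ) (H : L2 →L[ℂ] L2) : Prop :=
  ∀ (ψ : L2) (n : ℤ), H ψ n = ψ (n + 1) + ψ (n - 1) + ((V n : ℝ) : ℂ) * ψ n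

/-- The real points of the spectrum. -/
def Spec (H : L2 →L[ℂ] L2) : Set ℝ := {E : ℝ | (E : ℂ) ∈ spectrum ℂ H}

theorem hasSum_sq (ψ : L2) : HasSum (fun n => ‖ψ n‖ ^ 2) (‖ψ‖ ^ 2) := by
  have h := lp.hasSum_norm (p := 2) (by norm_num) ψ
  simpa using h

theorem hasSum_sq_shift (ψ : L2) (j : ℤ) : HasSum (fun n => ‖ψ (n + j)‖ ^ 2) (‖ψ‖ ^ 2) :=
  (Equiv.addRight j).hasSum_iff.mpr (hasSum_sq ψ)

theorem memL2_of_summable {f : ℤ → ℂ} (h : Summable fun n => ‖f n‖ ^ 2) : Memℓp f 2 := by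
  apply memℓp_gen
  simpa using h

/-- The shift by `j` as a linear map. -/
noncomputable def shiftL (j : ℤ) : L2 →ₗ[ℂ] L2 where
  toFun ψ := ⟨fun n => ψ (n + j), memL2_of_summable (hasSum_sq_shift ψ j).summable⟩
  map_add' _ _ := rfl
  map_smul' _ _ := rfl

theorem shiftL_apply (j : ℤ) (ψ : L2) (n : ℤ) : shiftL j ψ n = ψ (n + j) := rfl

theorem norm_shiftL (j : ℤ) (ψ : L2) : ‖shiftL j ψ‖ = ‖ψ‖ := by
  have h1 := hasSum_sq (shiftL j ψ)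
  have h2 := hasSum_sq_shift ψ j
  have h3 : ‖shiftL j ψ‖ ^ 2 = ‖ψ‖ ^ 2 := h1.unique h2
  exact (pow_left_inj₀ (norm_nonneg _) (norm_nonneg _) two_ne_zero).mp h3

theorem summable_mul_pot {V : ℤ → ℝ} {K : ℝ} (hV : ∀ n, |V n| ≤ K) (ψ : L2) :
    ∀ n, ‖((V n : ℝ) : ℂ) * ψ n‖ ^ 2 ≤ K ^ 2 * ‖ψ n‖ ^ 2 := by
  intro n
  rw [norm_mul, mul_pow, Complex.norm_real, Real.norm_eq_abs]
  have := hV n
  have h0 := abs_nonneg (V n)
  gcongr

/-- Multiplication by a bounded potential as a linear map. -/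
noncomputable def mulL (V : ℤ → ℝ) (K : ℝ) (hV : ∀ n, |V n| ≤ K) : L2 →ₗ[ℂ] L2 where
  toFun ψ := ⟨fun n => ((V n : ℝ) : ℂ) * ψ n, memL2_of_summable
    (Summable.of_nonneg_of_le (fun _ => by positivity) (summable_mul_pot hV ψ)
      ((hasSum_sq ψ).summable.mul_left _))⟩
  map_add' ψ φ := by
    apply lp.ext; funext n
    change ((V n : ℝ) : ℂ) * (ψ n + φ n) = ((V n : ℝ) : ℂ) * ψ n + ((V n : ℝ) : ℂ) * φ n
    ring
  map_smul' c ψ := by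
    apply lp.ext; funext n
    change ((V n : ℝ) : ℂ) * (c * ψ n) = c * (((V n : ℝ) : ℂ) * ψ n)
    ring

theorem mulL_apply (V : ℤ → ℝ) (K : ℝ) (hV : ∀ n, |V n| ≤ K) (ψ : L2) (n : ℤ) :
    mulL V K hV ψ n = ((V n : ℝ) : ℂ) * ψ n := rfl

theorem norm_mulL (V : ℤ → ℝ) (K : ℝ) (hV : ∀ n, |V n| ≤ K) (ψ : L2) :
    ‖mulL V K hV ψ‖ ≤ K * ‖ψ‖ := by
  have hK : 0 ≤ K := le_trans (abs_nonneg _) (hV 0)
  have h1 := hasSum_sq (mulL V K hV ψ)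
  have h2 := (hasSum_sq ψ).mul_left (K ^ 2)
  have h3 : ‖mulL V K hV ψ‖ ^ 2 ≤ K ^ 2 * ‖ψ‖ ^ 2 :=
    hasSum_le (summable_mul_pot hV ψ) h1 h2
  rw [← mul_pow] at h3
  exact (pow_le_pow_iff_left₀ (norm_nonneg _) (by positivity) two_ne_zero).mp h3

theorem exists_isSchr (V : ℤ → ℝ) (K : ℝ) (hV : ∀ n, |V n| ≤ K) :
    ∃ H : L2 →L[ℂ] L2, IsSchr V H := by
  refine ⟨(shiftL 1 + shiftL (-1) + mulL V K hV).mkContinuous (2 + K) ?_, ?_⟩
  · intro ψ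
    simp only [LinearMap.add_apply]
    calc ‖shiftL 1 ψ + shiftL (-1) ψ + mulL V K hV ψ‖
        ≤ ‖shiftL 1 ψ‖ + ‖shiftL (-1) ψ‖ + ‖mulL V K hV ψ‖ := norm_add₃_le
      _ ≤ ‖ψ‖ + ‖ψ‖ + K * ‖ψ‖ := by
          rw [norm_shiftL, norm_shiftL]; gcongr; exact norm_mulL V K hV ψ
      _ = (2 + K) * ‖ψ‖ := by ring
  · intro ψ n
    simp only [LinearMap.mkContinuous_apply, LinearMap.add_apply, lp.coeFn_add, Pi.add_apply,
      shiftL_apply, mulL_apply]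
    rfl

theorem hasSum_inner' (ψ φ : L2) : HasSum (fun n => conj (ψ n) * φ n) ⟪ψ, φ⟫_ℂ := by
  have h := lp.hasSum_inner (𝕜 := ℂ) ψ φ
  simpa [mul_comm] using h

theorem IsSchr.isSelfAdjoint {V : ℤ → ℝ} {K : ℝ} (hV : ∀ n, |V n| ≤ K) {H : L2 →L[ℂ] L2}
    (hH : IsSchr V H) : IsSelfAdjoint H := by
  rw [ContinuousLinearMap.isSelfAdjoint_iff_isSymmetric]
  intro ψ φ
  have a1 := hasSum_inner' (shiftL 1 ψ) φ
  have a2 := hasSum_inner' (shiftL (-1) ψ) φ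
  have a3 := hasSum_inner' (mulL V K hV ψ) φ
  have b1 := (Equiv.addRight (1 : ℤ)).hasSum_iff.mpr (hasSum_inner' ψ (shiftL (-1) φ))
  have b2 := (Equiv.addRight (-1 : ℤ)).hasSum_iff.mpr (hasSum_inner' ψ (shiftL 1 φ))
  have b3 := hasSum_inner' ψ (mulL V K hV φ)
  have e1 : ⟪shiftL 1 ψ, φ⟫_ℂ = ⟪ψ, shiftL (-1) φ⟫_ℂ := by
    refine a1.unique ?_
    convert b1 using 2 with n
    simp [shiftL_apply]
  have e2 : ⟪shiftL (-1) ψ, φ⟫_ℂ = ⟪ψ, shiftL 1 φ⟫_ℂ := by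
    refine a2.unique ?_
    convert b2 using 2 with n
    simp [shiftL_apply]
  have e3 : ⟪mulL V K hV ψ, φ⟫_ℂ = ⟪ψ, mulL V K hV φ⟫_ℂ := by
    refine a3.unique ?_
    convert b3 using 2 with n
    simp [mulL_apply]; ring
  have hH' : ∀ χ : L2, H χ = shiftL 1 χ + shiftL (-1) χ + mulL V K hV χ := by
    intro χ
    apply lp.ext; funext n
    rw [hH χ n]
    simp only [lp.coeFn_add, Pi.add_apply, shiftL_apply, mulL_apply]
    rfl
  change ⟪H ψ, φ⟫_ℂ = ⟪ψ, H φ⟫_ℂ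
  rw [hH' ψ, hH' φ, inner_add_left, inner_add_left, inner_add_right, inner_add_right, e1, e2, e3]
  ring

/-- A self-adjoint operator that is bounded below after the shift by `E` has `E` in its
resolvent set. -/
theorem not_mem_Spec_of_bdd_below {H : L2 →L[ℂ] L2} (hH : IsSelfAdjoint H) {E c : ℝ}
    (hc : 0 < c) (h : ∀ ψ : L2, c * ‖ψ‖ ^ 2 ≤ ‖H ψ - (E : ℂ) • ψ‖ ^ 2) : E ∉ Spec H := by
  intro hE
  apply hE
  set A : L2 →L[ℂ] L2 := algebraMap ℂ (L2 →L[ℂ] L2) (E : ℂ) - H with hA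
  have hAsa : IsSelfAdjoint A := by
    apply IsSelfAdjoint.sub _ hH
    apply IsSelfAdjoint.algebraMap
    simp [IsSelfAdjoint]
  have hAψ : ∀ ψ : L2, A ψ = -(H ψ - (E : ℂ) • ψ) := by
    intro ψ
    rw [hA, Algebra.algebraMap_eq_smul_one, neg_sub]
    rfl
  have hu : IsUnit (A * A) := by
    apply ContinuousLinearMap.isUnit_of_forall_le_norm_inner_map _ (c := ⟨c, hc.le⟩) hc
    intro ψ
    have hs := (ContinuousLinearMap.isSelfAdjoint_iff_isSymmetric.mp hAsa) (A ψ) ψ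
    have : ⟪(A * A) ψ, ψ⟫_ℂ = ⟪A ψ, A ψ⟫_ℂ := hs
    rw [this, inner_self_eq_norm_sq_to_K]
    have h2 := h ψ
    rw [← norm_neg (H ψ - (E : ℂ) • ψ), ← hAψ] at h2
    change ‖ψ‖ ^ 2 * c ≤ _
    rw [mul_comm]
    simpa using h2
  exact isUnit_mul_self_iff.mp hu

/-- An approximate eigenvector gives a nearby point of the spectrum. -/
theorem exists_mem_Spec_of_approx {H : L2 →L[ℂ] L2} (hH : IsSelfAdjoint H) {E δ : ℝ}
    {ψ : L2} (hψ : ψ ≠ 0) (h : ‖H ψ - (E : ℂ) • ψ‖ ≤ δ * ‖ψ‖) :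
    ∃ E' ∈ Spec H, |E' - E| ≤ δ := by
  have hψ' : 0 < ‖ψ‖ := norm_pos_iff.mpr hψ
  have hδ : 0 ≤ δ := by
    by_contra hneg
    have : δ * ‖ψ‖ < 0 := mul_neg_of_neg_of_pos (not_le.mp hneg) hψ'
    linarith [norm_nonneg (H ψ - (E : ℂ) • ψ)]
  by_cases hE : E ∈ Spec H
  · exact ⟨E, hE, by simpa using hδ⟩
  have : Nontrivial L2 := ⟨⟨ψ, 0, hψ⟩⟩
  set A : L2 →L[ℂ] L2 := algebraMap ℂ (L2 →L[ℂ] L2) (E : ℂ) - H with hA
  have hAsa : IsSelfAdjoint A := by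
    apply IsSelfAdjoint.sub _ hH
    apply IsSelfAdjoint.algebraMap
    simp [IsSelfAdjoint]
  have hAψ : A ψ = -(H ψ - (E : ℂ) • ψ) := by
    rw [hA, Algebra.algebraMap_eq_smul_one, neg_sub]
    rfl
  have hu : IsUnit A := by
    by_contra hn
    exact hE hn
  obtain ⟨u, hu⟩ := hu
  have hRsa : IsSelfAdjoint ((u⁻¹ : (L2 →L[ℂ] L2)ˣ) : L2 →L[ℂ] L2) := by
    have : IsSelfAdjoint u := by
      ext1
      simp only [Units.coe_star, hu]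
      exact hAsa
    have h2 : IsSelfAdjoint u⁻¹ := this.inv
    have h3 := congrArg (fun w : (L2 →L[ℂ] L2)ˣ => (w : L2 →L[ℂ] L2)) h2
    simp only [Units.coe_star] at h3
    exact h3
  set R : L2 →L[ℂ] L2 := ((u⁻¹ : (L2 →L[ℂ] L2)ˣ) : L2 →L[ℂ] L2) with hR
  obtain ⟨z, hz, hzn⟩ := spectrum.exists_nnnorm_eq_spectralRadius R
  rw [hRsa.spectralRadius_eq_nnnorm] at hzn
  have hzn' : ‖z‖ = ‖R‖ := by
    have : ‖z‖₊ = ‖R‖₊ := by exact_mod_cast hzn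
    exact congrArg NNReal.toReal this
  have hRA : R (A ψ) = ψ := by
    have : R * A = 1 := by rw [hR, ← hu]; simp
    calc R (A ψ) = (R * A) ψ := rfl
      _ = ψ := by rw [this]; rfl
  have h1 : ‖ψ‖ ≤ ‖z‖ * (δ * ‖ψ‖) := by
    calc ‖ψ‖ = ‖R (A ψ)‖ := by rw [hRA]
      _ ≤ ‖R‖ * ‖A ψ‖ := R.le_opNorm _
      _ ≤ ‖z‖ * (δ * ‖ψ‖) := by
          rw [hzn', hAψ, norm_neg]; gcongr
  have h2 : 1 ≤ ‖z‖ * δ := by
    have : 1 * ‖ψ‖ ≤ (‖z‖ * δ) * ‖ψ‖ := by linarith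
    exact le_of_mul_le_mul_right this hψ'
  have hz0 : z ≠ 0 := by
    rintro rfl
    simp at h2
    linarith
  have hzi : z⁻¹ ∈ spectrum ℂ A := by
    have := (spectrum.inv_mem_iff (R := ℂ) (r := (Units.mk0 z hz0)⁻¹) (a := u)).mpr
      (by simpa using hz)
    simpa [hu] using this
  have hmem : (E : ℂ) - z⁻¹ ∈ spectrum ℂ H := by
    have h3 := spectrum.singleton_sub_eq H (E : ℂ)
    rw [← hA] at h3
    rw [← h3] at hzi
    obtain ⟨a, ha, b, hb, hab⟩ := hzi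
    simp only [Set.mem_singleton_iff] at ha
    subst ha
    have : (E : ℂ) - z⁻¹ = b := by rw [← hab]; ring
    rwa [this]
  have hre := hH.mem_spectrum_eq_re hmem
  refine ⟨((E : ℂ) - z⁻¹).re, ?_, ?_⟩
  · change ((((E : ℂ) - z⁻¹).re : ℝ) : ℂ) ∈ spectrum ℂ H
    rw [← hre]; exact hmem
  · have h4 : ((E : ℂ) - z⁻¹).re - E = (-z⁻¹).re := by simp
    rw [h4]
    refine le_trans (Complex.abs_re_le_norm _) ?_
    rw [norm_neg, norm_inv]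
    have hzp : 0 < ‖z‖ := norm_pos_iff.mpr hz0
    rw [inv_le_iff_one_le_mul₀ hzp]
    linarith

theorem isCompact_Spec (H : L2 →L[ℂ] L2) : IsCompact (Spec H) :=
  Complex.isometry_ofReal.isClosedEmbedding.isCompact_preimage (spectrum.isCompact H)

end Pool.Agent.Lib.MP_73239e_mp
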