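import Pool.Agent.Lib.MP_73239e_mp.Op

set_option autoImplicit false

namespace Pool.Agent.Lib.MP_73239e_mp

/-- Formal solutions of the eigenvalue equation. -/
def IsSol (V : ℤ → ℝ) (E : ℝ) (u : ℤ → ℂ) : Prop :=
  ∀ n, u (n + 1) + u (n - 1) + ((V n : ℝ) : ℂ) * u n = (E : ℂ) * u n

/-- Every formal solution bounded by `B` on a window of radius `R` is bounded by `θ B`
at the centre. -/
def Contr (V : ℤ → ℝ) (E : ℝ) (R : ℕ) (θ : ℝ) : Prop :=
  ∀ u, IsSol V E u → ∀ (m : ℤ) (B : ℝ), (∀ j : ℤ, |j| ≤ R → ‖u (m + j)‖ ≤ B) → ‖u m‖ ≤ θ * B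

theorem gron_nat (d c r : ℕ → ℂ) (K B : ℝ) (N : ℕ) (hK : 0 ≤ K)
    (hc : ∀ k < N, ‖c k‖ ≤ K) (hr : ∀ k < N, ‖r k‖ ≤ B) (h0 : ‖d 0‖ ≤ B) (h1 : ‖d 1‖ ≤ B)
    (hrec : ∀ k < N, d (k + 2) = c k * d (k + 1) - d k + r k) :
    ∀ k ≤ N, ‖d k‖ ≤ (K + 2) ^ k * B ∧ ‖d (k + 1)‖ ≤ (K + 2) ^ k * B := by
  have hB : 0 ≤ B := le_trans (norm_nonneg _) h0
  intro k
  induction k with
  | zero => intro _; simpa using ⟨h0, h1⟩
  | succ k ih =>
    intro hk
    obtain ⟨a, b⟩ := ih (by omega)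
    have hp : (1 : ℝ) ≤ (K + 2) ^ k := one_le_pow₀ (by linarith)
    have hpB : B ≤ (K + 2) ^ k * B := by nlinarith
    constructor
    · rw [pow_succ]
      nlinarith
    · rw [hrec k (by omega)]
      have e1 : ‖c k * d (k + 1) - d k + r k‖ ≤ ‖c k‖ * ‖d (k + 1)‖ + ‖d k‖ + ‖r k‖ := by
        refine le_trans (norm_add_le _ _) ?_
        gcongr
        refine le_trans (norm_sub_le _ _) ?_
        rw [norm_mul]
      have e2 : ‖c k‖ * ‖d (k + 1)‖ ≤ K * ((K + 2) ^ k * B) := by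
        have := hc k (by omega)
        gcongr
      have e3 := hr k (by omega)
      rw [pow_succ]
      nlinarith

theorem gron_int (d r : ℤ → ℂ) (V : ℤ → ℝ) (E K B : ℝ) (N : ℕ) (m : ℤ)
    (hV : ∀ n, |E - V n| ≤ K) (hr : ∀ j : ℤ, |j| ≤ N → ‖r (m + j)‖ ≤ B)
    (h0 : ‖d m‖ ≤ B) (h1 : ‖d (m + 1)‖ ≤ B)
    (hrec : ∀ n, d (n + 1) + d (n - 1) + ((V n : ℝ) : ℂ) * d n = (E : ℂ) * d n + r n) :
    ∀ j : ℤ, |j| ≤ N → ‖d (m + j)‖ ≤ (K + 2) ^ N * B := by
  have hK : 0 ≤ K := le_trans (abs_nonneg _) (hV 0)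
  have hB : 0 ≤ B := le_trans (norm_nonneg _) h0
  have hn : ∀ n, ‖((E - V n : ℝ) : ℂ)‖ ≤ K := by
    intro n; rw [Complex.norm_real, Real.norm_eq_abs]; exact hV n
  have mono : ∀ k ≤ N, (K + 2) ^ k * B ≤ (K + 2) ^ N * B := by
    intro k hk
    have : (K + 2) ^ k ≤ (K + 2) ^ N := pow_le_pow_right₀ (by linarith) hk
    gcongr
  intro j hj
  rcases le_or_gt 0 j with h | h
  · obtain ⟨k, rfl⟩ := Int.eq_ofNat_of_zero_le h
    have hk : k ≤ N := by
      rw [abs_of_nonneg h] at hj; exact_mod_cast hj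
    have := gron_nat (fun k => d (m + k)) (fun k => ((E - V (m + k + 1) : ℝ) : ℂ))
      (fun k => r (m + (k + 1))) K B N hK (fun k _ => hn _)
      (fun k hk => hr _ (by rw [abs_of_nonneg (by positivity)]; exact_mod_cast hk))
      (by simpa using h0) (by simpa using h1) (by
        intro k _
        have := hrec (m + k + 1)
        have e1 : m + ((k + 2 : ℕ) : ℤ) = m + k + 1 + 1 := by push_cast; ring
        have e2 : m + ((k + 1 : ℕ) : ℤ) = m + k + 1 := by push_cast; ring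
        have e3 : m + (k : ℤ) + 1 - 1 = m + k := by ring
        have e4 : m + ((k : ℤ) + 1) = m + k + 1 := by ring
        rw [e3] at this
        simp only [e1, e2, e4]
        push_cast
        linear_combination this) k hk
    exact le_trans this.1 (mono k hk)
  · obtain ⟨k, hk'⟩ := Int.eq_ofNat_of_zero_le (show 0 ≤ -j by omega)
    have hjk : j = -(k : ℤ) := by omega
    subst hjk
    have hk : k ≤ N := by
      rw [abs_neg, abs_of_nonneg (by positivity)] at hj; exact_mod_cast hj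
    have := gron_nat (fun k => d (m + 1 - k)) (fun k => ((E - V (m - k) : ℝ) : ℂ))
      (fun k => r (m + (-k))) K B N hK (fun k _ => hn _)
      (fun k hk => hr _ (by rw [abs_neg, abs_of_nonneg (by positivity)]; exact_mod_cast hk.le))
      (by simpa using h1) (by simpa using h0) (by
        intro k _
        have := hrec (m - k)
        have e1 : m + 1 - ((k + 2 : ℕ) : ℤ) = m - k - 1 := by push_cast; ring
        have e2 : m + 1 - ((k + 1 : ℕ) : ℤ) = m - k := by push_cast; ring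
        have e3 : m + 1 - (k : ℤ) = m - k + 1 := by ring
        have e4 : m + (-(k : ℤ)) = m - k := by ring
        simp only [e1, e2, e3, e4]
        push_cast
        linear_combination this) k hk
    have e2 : m + 1 - ((k + 1 : ℕ) : ℤ) = m + -k := by push_cast; ring
    have h5 := this.2
    simp only [e2] at h5
    exact le_trans h5 (mono k hk)

/-- The solution of a three term recurrence with given initial values. -/
def sol {R : Type*} [CommRing R] (c : ℕ → R) (a b : R) : ℕ → R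
  | 0 => a
  | 1 => b
  | n + 2 => c n * sol c a b (n + 1) - sol c a b n

theorem exists_isSol (V : ℤ → ℝ) (E : ℝ) (m : ℤ) (a b : ℂ) :
    ∃ u, IsSol V E u ∧ u m = a ∧ u (m + 1) = b := by
  set f : ℕ → ℂ := sol (fun k => ((E - V (m + k + 1) : ℝ) : ℂ)) a b with hf
  set g : ℕ → ℂ := sol (fun k => ((E - V (m - k) : ℝ) : ℂ)) b a with hg
  set u : ℤ → ℂ := fun n => if m ≤ n then f (n - m).toNat else g (m + 1 - n).toNat with hu
  have uf : ∀ k : ℕ, u (m + k) = f k := by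
    intro k
    simp [hu]
  have ug : ∀ k : ℕ, u (m + 1 - k) = g k := by
    intro k
    rcases k with _ | _ | k
    · have := uf 1
      simp only [Nat.cast_one] at this
      simp [this, hf, hg, sol]
    · have := uf 0
      simp only [Nat.cast_zero, add_zero] at this
      simp [this, hf, hg, sol]
    · have h1 : ¬ m ≤ m + 1 - ((k + 1 + 1 : ℕ) : ℤ) := by push_cast; omega
      have h2 : (m + 1 - (m + 1 - ((k + 1 + 1 : ℕ) : ℤ))).toNat = k + 1 + 1 := by
        push_cast; omega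
      simp only [hu, if_neg h1, h2]
  refine ⟨u, ?_, ?_, ?_⟩
  · intro n
    rcases le_or_gt (m + 1) n with h | h
    · obtain ⟨k, hk⟩ := Int.eq_ofNat_of_zero_le (show 0 ≤ n - (m + 1) by omega)
      have e0 : n = m + k + 1 := by omega
      have e1 : n + 1 = m + ((k + 2 : ℕ) : ℤ) := by push_cast; omega
      have e2 : n = m + ((k + 1 : ℕ) : ℤ) := by push_cast; omega
      have e3 : n - 1 = m + ((k : ℕ) : ℤ) := by omega
      have v1 := uf (k + 2)
      have v2 := uf (k + 1)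
      have v3 := uf k
      rw [← e1] at v1
      rw [← e2] at v2
      rw [← e3] at v3
      rw [v1, v2, v3]
      have : f (k + 2) = ((E - V (m + k + 1) : ℝ) : ℂ) * f (k + 1) - f k := by
        simp only [hf, sol]
      rw [this, ← e0]
      push_cast
      ring
    · obtain ⟨k, hk⟩ := Int.eq_ofNat_of_zero_le (show 0 ≤ m - n by omega)
      have e0 : n = m - k := by omega
      have e1 : n - 1 = m + 1 - ((k + 2 : ℕ) : ℤ) := by push_cast; omega
      have e2 : n = m + 1 - ((k + 1 : ℕ) : ℤ) := by push_cast; omega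
      have e3 : n + 1 = m + 1 - ((k : ℕ) : ℤ) := by omega
      have v1 := ug (k + 2)
      have v2 := ug (k + 1)
      have v3 := ug k
      rw [← e1] at v1
      rw [← e2] at v2
      rw [← e3] at v3
      rw [v1, v2, v3]
      have : g (k + 2) = ((E - V (m - k) : ℝ) : ℂ) * g (k + 1) - g k := by
        simp only [hg, sol]
      rw [this, ← e0]
      push_cast
      ring
  · have := uf 0
    simpa [hf, sol] using this
  · have := uf 1
    simpa [hf, sol] using this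

theorem Contr.iterate {V : ℤ → ℝ} {E : ℝ} {R : ℕ} {θ : ℝ} (h : Contr V E R θ) (k : ℕ) :
    Contr V E (k * R) (θ ^ k) := by
  induction k with
  | zero =>
    intro u _ m B hB
    simpa using hB 0 (by simp)
  | succ k ih =>
    intro u hu m B hB
    rw [pow_succ', mul_assoc]
    apply h u hu m
    intro j hj
    apply ih u hu (m + j) B
    intro i hi
    rw [add_assoc]
    apply hB
    have := abs_add_le j i
    push_cast at hi ⊢
    linarith

theorem exists_iter_small {θ : ℝ} (h0 : 0 ≤ θ) (h1 : θ < 1) (R : ℕ) :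
    ∃ k : ℕ, 4 * (θ ^ k) ^ 2 * (2 * ((k * R : ℕ) : ℝ) + 1) ≤ 1 := by
  have hθ2 : θ ^ 2 < 1 := by nlinarith
  have t1 := tendsto_self_mul_const_pow_of_lt_one (r := θ ^ 2) (by positivity) hθ2
  have t2 := tendsto_pow_atTop_nhds_zero_of_lt_one (r := θ ^ 2) (by positivity) hθ2
  have t3 := (t1.const_mul (8 * (R : ℝ))).add (t2.const_mul 4)
  simp only [mul_zero, add_zero] at t3
  obtain ⟨k, hk⟩ := (t3.eventually (ge_mem_nhds (show (0 : ℝ) < 1 by norm_num))).exists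
  refine ⟨k, ?_⟩
  have : (θ ^ k) ^ 2 = (θ ^ 2) ^ k := by rw [← pow_mul, ← pow_mul, mul_comm]
  rw [this]
  push_cast
  linarith

theorem sq_le_sum_window (f : ℤ → ℂ) (m : ℤ) (N : ℕ) (j : ℤ) (hj : |j| ≤ N) :
    ‖f (m + j)‖ ≤ Real.sqrt (∑ i ∈ Finset.Icc (-(N : ℤ)) N, ‖f (m + i)‖ ^ 2) := by
  apply Real.le_sqrt_of_sq_le
  apply Finset.single_le_sum (f := fun i => ‖f (m + i)‖ ^ 2) (fun _ _ => by positivity)
  rw [Finset.mem_Icc]
  exact abs_le.mp hj

/-- A uniform contraction property of formal solutions keeps `E` out of the spectrum. -/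
theorem not_mem_Spec_of_contr {V : ℤ → ℝ} {K₀ : ℝ} (hV : ∀ n, |V n| ≤ K₀) {H : L2 →L[ℂ] L2}
    (hH : IsSchr V H) {E θ : ℝ} {R : ℕ} (h0 : 0 ≤ θ) (h1 : θ < 1) (h : Contr V E R θ) :
    E ∉ Spec H := by
  obtain ⟨k, hk⟩ := exists_iter_small h0 h1 R
  have hc := h.iterate k
  set N := k * R with hN
  set τ := θ ^ k with hτ
  have hτ0 : 0 ≤ τ := by positivity
  set K := |E| + K₀ with hK
  have hK0 : 0 ≤ K := by
    have := hV 0; have := abs_nonneg (V 0); have := abs_nonneg E; linarith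
  have hVK : ∀ n, |E - V n| ≤ K := fun n => by
    have := abs_sub E (V n); have := hV n; linarith
  set Λ := (K + 2) ^ N with hΛ
  have hΛ1 : 1 ≤ Λ := one_le_pow₀ (by linarith)
  apply not_mem_Spec_of_bdd_below (hH.isSelfAdjoint hV) (c := (Λ ^ 2)⁻¹) (by positivity)
  intro ψ
  set ρ : L2 := H ψ - (E : ℂ) • ψ with hρ
  have hρn : ∀ n, ψ (n + 1) + ψ (n - 1) + ((V n : ℝ) : ℂ) * ψ n = (E : ℂ) * ψ n + ρ n := by
    intro n
    have : ρ n = H ψ n - (E : ℂ) * ψ n := rfl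
    rw [this, hH ψ n]; ring
  have key : ∀ m, ‖ψ m‖ ^ 2 ≤ 2 * τ ^ 2 * ((∑ i ∈ Finset.Icc (-(N : ℤ)) N, ‖ψ (m + i)‖ ^ 2)
      + Λ ^ 2 * ∑ i ∈ Finset.Icc (-(N : ℤ)) N, ‖ρ (m + i)‖ ^ 2) := by
    intro m
    obtain ⟨u, hu, hu0, hu1⟩ := exists_isSol V E m (ψ m) (ψ (m + 1))
    set s2 := ∑ i ∈ Finset.Icc (-(N : ℤ)) N, ‖ψ (m + i)‖ ^ 2 with hs2
    set r2 := ∑ i ∈ Finset.Icc (-(N : ℤ)) N, ‖ρ (m + i)‖ ^ 2 with hr2
    have s20 : 0 ≤ s2 := Finset.sum_nonneg fun _ _ => by positivity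
    have r20 : 0 ≤ r2 := Finset.sum_nonneg fun _ _ => by positivity
    have hd := gron_int (fun n => ψ n - u n) ρ V E K (Real.sqrt r2) N m hVK
      (fun j hj => sq_le_sum_window ρ m N j hj) (by simp [hu0]) (by simp [hu1]) (by
        intro n
        have a := hρn n
        have b := hu n
        linear_combination a - b)
    have hb : ∀ j : ℤ, |j| ≤ N → ‖u (m + j)‖ ≤ Real.sqrt s2 + Λ * Real.sqrt r2 := by
      intro j hj
      have a := hd j hj
      have b := sq_le_sum_window ψ m N j hj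
      have c : u (m + j) = ψ (m + j) - (ψ (m + j) - u (m + j)) := by ring
      rw [c]
      exact le_trans (norm_sub_le _ _) (add_le_add b a)
    have hm := hc u hu m _ hb
    rw [hu0] at hm
    have e1 := Real.sq_sqrt s20
    have e2 := Real.sq_sqrt r20
    set a := Real.sqrt s2
    set b := Real.sqrt r2
    have : ‖ψ m‖ ^ 2 ≤ (τ * (a + Λ * b)) ^ 2 := by gcongr
    rw [← e1, ← e2]
    nlinarith [sq_nonneg (τ * (a - Λ * b))]
  have S1 : HasSum (fun m => ∑ i ∈ Finset.Icc (-(N : ℤ)) N, ‖ψ (m + i)‖ ^ 2)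
      (∑ _i ∈ Finset.Icc (-(N : ℤ)) N, ‖ψ‖ ^ 2) :=
    hasSum_sum fun i _ => hasSum_sq_shift ψ i
  have S2 : HasSum (fun m => ∑ i ∈ Finset.Icc (-(N : ℤ)) N, ‖ρ (m + i)‖ ^ 2)
      (∑ _i ∈ Finset.Icc (-(N : ℤ)) N, ‖ρ‖ ^ 2) :=
    hasSum_sum fun i _ => hasSum_sq_shift ρ i
  have S3 := hasSum_le key (hasSum_sq ψ) ((S1.add (S2.mul_left (Λ ^ 2))).mul_left (2 * τ ^ 2))
  have hcard : ((Finset.Icc (-(N : ℤ)) N).card : ℝ) = 2 * (N : ℝ) + 1 := by
    rw [Int.card_Icc]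
    have : ((N : ℤ) + 1 - -(N : ℤ)).toNat = 2 * N + 1 := by omega
    rw [this]; push_cast; ring
  simp only [Finset.sum_const, nsmul_eq_mul, hcard] at S3
  rw [inv_mul_le_iff₀ (by positivity)]
  have p1 : 0 ≤ ‖ψ‖ ^ 2 := by positivity
  have p2 : 0 ≤ Λ ^ 2 * ‖ρ‖ ^ 2 := by positivity
  have p3 : 2 * τ ^ 2 * ((2 * (N : ℝ) + 1) * ‖ψ‖ ^ 2 + Λ ^ 2 * ((2 * (N : ℝ) + 1) * ‖ρ‖ ^ 2))
      = (4 * τ ^ 2 * (2 * (N : ℝ) + 1)) * ((‖ψ‖ ^ 2 + Λ ^ 2 * ‖ρ‖ ^ 2) / 2) := by ring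
  rw [p3] at S3
  have p4 : (4 * τ ^ 2 * (2 * (N : ℝ) + 1)) * ((‖ψ‖ ^ 2 + Λ ^ 2 * ‖ρ‖ ^ 2) / 2)
      ≤ 1 * ((‖ψ‖ ^ 2 + Λ ^ 2 * ‖ρ‖ ^ 2) / 2) := by gcongr
  linarith

/-- Large energies are not in the spectrum. -/
theorem abs_le_of_mem_Spec {V : ℤ → ℝ} {K₀ : ℝ} (hV : ∀ n, |V n| ≤ K₀) {H : L2 →L[ℂ] L2}
    (hH : IsSchr V H) {E : ℝ} (hE : E ∈ Spec H) : |E| ≤ 2 + K₀ := by
  by_contra hn
  push Not at hn
  have hp : 0 < |E| - K₀ := by linarith
  refine not_mem_Spec_of_contr hV hH (θ := 2 / (|E| - K₀)) (R := 1) (by positivity)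
    (by rw [div_lt_one hp]; linarith) ?_ hE
  intro u hu m B hB
  have a := hB 1 (by simp)
  have b := hB (-1) (by simp)
  have c := hu m
  have d : ((E - V m : ℝ) : ℂ) * u m = u (m + 1) + u (m + -1) := by
    push_cast
    have : m + -1 = m - 1 := by ring
    rw [this]
    linear_combination -c
  have e : |E - V m| * ‖u m‖ ≤ 2 * B := by
    rw [← Real.norm_eq_abs, ← Complex.norm_real, ← norm_mul, d]
    linarith [norm_add_le (u (m + 1)) (u (m + -1))]
  have f : |E| - K₀ ≤ |E - V m| := by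
    have := abs_sub_abs_le_abs_sub E (V m); have := hV m; linarith
  rw [div_mul_eq_mul_div, le_div_iff₀ hp]
  have := norm_nonneg (u m)
  nlinarith

end Pool.Agent.Lib.MP_73239e_mp
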