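import Pool.Agent.Lib.MP_73239e_mp.Approx

set_option autoImplicit false

open Polynomial

namespace Pool.Agent.Lib.MP_73239e_mp

/-- The Sturmian potential with coupling `lam`, frequency `α` and phase zero. -/
noncomputable def pot (lam α : ℝ) : ℤ → ℝ :=
  fun n => if 1 - α ≤ Int.fract ((n : ℝ) * α) then lam else 0

theorem abs_pot_le {lam : ℝ} (hlam : 0 ≤ lam) (α : ℝ) (n : ℤ) : |pot lam α n| ≤ lam := by
  unfold pot
  split_ifs
  · rw [abs_of_nonneg hlam]
  · simpa using hlam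

theorem pot_eq (lam : ℝ) {α : ℝ} (h0 : 0 < α) (h1 : α < 1) (n : ℤ) :
    pot lam α n = lam * ((⌊((n + 1 : ℤ) : ℝ) * α⌋ - ⌊(n : ℝ) * α⌋ : ℤ) : ℝ) := by
  have a := Int.fract_add_floor ((n : ℝ) * α)
  have b := Int.fract_nonneg ((n : ℝ) * α)
  have c := Int.fract_lt_one ((n : ℝ) * α)
  unfold pot
  split_ifs with h
  · have : ⌊((n + 1 : ℤ) : ℝ) * α⌋ = ⌊(n : ℝ) * α⌋ + 1 := by
      rw [Int.floor_eq_iff]
      push_cast
      constructor <;> linarith
    rw [this]; simp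
  · have : ⌊((n + 1 : ℤ) : ℝ) * α⌋ = ⌊(n : ℝ) * α⌋ := by
      rw [Int.floor_eq_iff]
      push_cast
      constructor <;> linarith
    rw [this]; simp

/-- The periodic mechanical words of slope `p / q`. -/
noncomputable def cw (lam : ℝ) (p q : ℕ) (j : ℤ) : ℤ → ℝ :=
  fun k => lam * (((k * p + j) / q - ((k - 1) * p + j) / q : ℤ) : ℝ)

theorem ediv_pred {a q : ℤ} (hq : 0 < q) (h : ¬ q ∣ a) : (a + -1) / q = (a + 0) / q := by
  rw [add_zero, Int.ediv_eq_iff_of_pos hq]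
  have h1 := Int.emod_add_mul_ediv a q
  have h2 := Int.emod_nonneg a hq.ne'
  have h3 := Int.emod_lt_of_pos a hq
  have h4 : a % q ≠ 0 := fun h0 => h (Int.dvd_of_emod_eq_zero h0)
  have h5 : 0 < a % q := lt_of_le_of_ne h2 h4.symm
  constructor <;> nlinarith

theorem not_dvd_mul {p q : ℕ} (hc : Nat.Coprime p q) {k : ℤ} (h0 : k ≠ 0) (h1 : |k| < q) :
    ¬ (q : ℤ) ∣ k * p := by
  intro h
  have hc' : IsCoprime (q : ℤ) (p : ℤ) := Nat.isCoprime_iff_coprime.mpr hc.symm
  have := hc'.dvd_of_dvd_mul_right h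
  exact h0 (Int.eq_zero_of_abs_lt_dvd this h1)

theorem exists_inv {p q : ℕ} (hc : Nat.Coprime p q) : ∃ t c : ℤ, t * p = -1 + c * q := by
  obtain ⟨a, b, h⟩ := Nat.isCoprime_iff_coprime.mpr hc
  exact ⟨-a, b, by linarith⟩

theorem cw_per (lam : ℝ) (p : ℕ) {q : ℕ} (hq : 0 < q) (j n : ℤ) :
    cw lam p q j (n + q) = cw lam p q j n := by
  have hq' : (q : ℤ) ≠ 0 := by omega
  have e1 : (n + q) * p + j = (n * p + j) + p * q := by ring
  have e2 : (n + q - 1) * p + j = ((n - 1) * p + j) + p * q := by ring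
  unfold cw
  rw [e1, e2, Int.add_mul_ediv_right _ _ hq', Int.add_mul_ediv_right _ _ hq']
  congr 2
  ring

theorem abs_cw_le {lam : ℝ} (hlam : 0 ≤ lam) {p q : ℕ} (hpq : p < q) (j n : ℤ) :
    |cw lam p q j n| ≤ lam := by
  have hq : (0 : ℤ) < q := by omega
  have h1 : ((n - 1) * p + j) / q ≤ (n * p + j) / q :=
    Int.ediv_le_ediv hq (by nlinarith [show (0 : ℤ) ≤ p by positivity])
  have h2 : (n * p + j) / q ≤ (((n - 1) * p + j) + 1 * q) / q :=
    Int.ediv_le_ediv hq (by nlinarith [show (p : ℤ) < q by omega])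
  rw [Int.add_mul_ediv_right _ _ hq.ne'] at h2
  unfold cw
  have : ((n * p + j) / q - ((n - 1) * p + j) / q : ℤ) = 0 ∨
      ((n * p + j) / q - ((n - 1) * p + j) / q : ℤ) = 1 := by omega
  rcases this with h | h <;> rw [h] <;> simp [hlam, abs_of_nonneg]

theorem model_cw {lam : ℝ} (hlam : 0 ≤ lam) {p q : ℕ} (hp : 0 < p) (hpq : p < q)
    (hc : Nat.Coprime p q) : Model lam q (cw lam p q (-1)) (cw lam p q 0) := by
  have hq : (0 : ℤ) < q := by omega
  have hp' : (0 : ℤ) < p := by omega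
  have hpq' : (p : ℤ) < q := by omega
  have d1 : ∀ a : ℤ, -(q : ℤ) ≤ a → a < 0 → a / q = -1 := fun a h1 h2 => by
    rw [Int.ediv_eq_iff_of_pos hq]; constructor <;> linarith
  have d0 : ∀ a : ℤ, 0 ≤ a → a < q → a / q = 0 := fun a h1 h2 => by
    rw [Int.ediv_eq_iff_of_pos hq]; constructor <;> linarith
  have v1 : cw lam p q (-1) 0 = 0 := by
    unfold cw; rw [d1 _ (by omega) (by omega), d1 _ (by omega) (by omega)]; simp
  have v2 : cw lam p q (-1) 1 = lam := by
    unfold cw; rw [d0 _ (by omega) (by omega), d1 _ (by omega) (by omega)]; simp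
  have v3 : cw lam p q 0 0 = lam := by
    unfold cw; rw [d0 _ (by omega) (by omega), d1 _ (by omega) (by omega)]; simp
  have v4 : cw lam p q 0 1 = 0 := by
    unfold cw; rw [d0 _ (by omega) (by omega), d0 _ (by omega) (by omega)]; simp
  refine ⟨cw_per lam p (by omega) _, cw_per lam p (by omega) _, abs_cw_le hlam hpq _,
    abs_cw_le hlam hpq _, by rw [v1, v4], by rw [v2, v3], ?_, by rw [v1, v3]; ring, ?_⟩
  · intro k h1 h2
    unfold cw
    rw [ediv_pred hq (not_dvd_mul hc (by omega) (by rw [abs_lt]; omega)),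
      ediv_pred hq (not_dvd_mul hc (by omega) (by rw [abs_lt]; omega))]
  · obtain ⟨t, c, h⟩ := exists_inv hc
    apply Polynomial.funext
    intro E
    rw [eval_xP, eval_xP, ← disc_shift_int (cw_per lam p (by omega) 0) E t]
    congr 1
    funext k
    have e1 : (t + k) * p + 0 = (k * p + -1) + c * q := by linarith
    have e2 : (t + k - 1) * p + 0 = ((k - 1) * p + -1) + c * q := by linarith
    unfold cw
    rw [e1, e2, Int.add_mul_ediv_right _ _ hq.ne', Int.add_mul_ediv_right _ _ hq.ne']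
    congr 3
    ring

theorem loc_of_switch (lam : ℝ) {p q : ℕ} (hq2 : 2 ≤ q) (hc : Nat.Coprime p q) (G : ℤ → ℤ)
    (a b n1 J i1 i2 : ℤ) (hi : (i1 = -1 ∧ i2 = 0) ∨ (i1 = 0 ∧ i2 = -1))
    (h1 : ∀ n, a ≤ n → n ≤ b → n < n1 → G n = (n * p + (J + i1)) / q)
    (h2 : ∀ n, a ≤ n → n ≤ b → n1 ≤ n → G n = (n * p + (J + i2)) / q) :
    ∃ s : ℤ, ∀ n, a ≤ n → n + 1 ≤ b → lam * ((G (n + 1) - G n : ℤ) : ℝ)
      = if n < s then cw lam p q i1 (n - s) else cw lam p q i2 (n - s) := by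
  have hq : (0 : ℤ) < q := by omega
  obtain ⟨t, c, h⟩ := exists_inv hc
  obtain ⟨ns, T, hn1, hn2, hT⟩ : ∃ ns T : ℤ, n1 ≤ ns ∧ ns < n1 + q ∧ ns * p + J = T * q := by
    have e1 := Int.emod_add_mul_ediv (t * J - n1) q
    have e2 := Int.emod_nonneg (t * J - n1) hq.ne'
    have e3 := Int.emod_lt_of_pos (t * J - n1) hq
    refine ⟨n1 + (t * J - n1) % q, J * c - (t * J - n1) / q * p, by omega, by omega, ?_⟩
    linear_combination J * h + p * e1
  have hF : ∀ k : ℤ, -(q : ℤ) < k → k < 0 → (k * p + i1) / q = (k * p + i2) / q := by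
    intro k a1 a2
    have := ediv_pred hq (not_dvd_mul hc (k := k) (by omega) (by rw [abs_lt]; omega))
    rcases hi with ⟨rfl, rfl⟩ | ⟨rfl, rfl⟩
    · exact this
    · exact this.symm
  have hG : ∀ n i : ℤ, (n * p + (J + i)) / q = ((n - ns) * p + i) / q + T := by
    intro n i
    rw [← Int.add_mul_ediv_right _ _ hq.ne']
    congr 1
    linarith
  have g1 : ∀ n, a ≤ n → n ≤ b → n < ns → G n = ((n - ns) * p + i1) / q + T := by
    intro n x y z
    rcases lt_or_ge n n1 with w | w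
    · rw [h1 n x y w, hG]
    · rw [h2 n x y w, hG, hF _ (by omega) (by omega)]
  have g2 : ∀ n, a ≤ n → n ≤ b → ns - 1 ≤ n → G n = ((n - ns) * p + i2) / q + T := by
    intro n x y z
    rcases lt_or_ge n n1 with w | w
    · rw [h1 n x y w, hG, hF _ (by omega) (by omega)]
    · rw [h2 n x y w, hG]
  refine ⟨ns - 1, ?_⟩
  intro n x y
  have e1 : n - (ns - 1) = n + 1 - ns := by ring
  have e2 : n + 1 - ns - 1 = n - ns := by ring
  split_ifs with z
  · rw [g1 n x (by omega) (by omega), g1 (n + 1) (by omega) y (by omega)]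
    unfold cw
    rw [e1, e2]
    congr 2
    ring
  · rw [g2 n x (by omega) (by omega), g2 (n + 1) (by omega) y (by omega)]
    unfold cw
    rw [e1, e2]
    congr 2
    ring

/-- Near a rational frequency every window sees at most one defect. -/
theorem loc_pot (lam : ℝ) {p q : ℕ} (hq2 : 2 ≤ q) (hc : Nat.Coprime p q) (R : ℕ) {α : ℝ}
    (h0 : 0 < α) (h1 : α < 1) (hne : α ≠ p / q) (hcl : |α - p / q| < 1 / (q * (2 * R + 2)))
    (m : ℤ) : ∃ i1 i2 s : ℤ, ((i1 = -1 ∧ i2 = 0) ∨ (i1 = 0 ∧ i2 = -1)) ∧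
      ∀ n, |n - m| ≤ R →
        pot lam α n = if n < s then cw lam p q i1 (n - s) else cw lam p q i2 (n - s) := by
  have hq : (0 : ℝ) < q := by positivity
  set e : ℝ := q * (α - p / q) with he
  have he0 : e ≠ 0 := mul_ne_zero hq.ne' (sub_ne_zero.mpr hne)
  have he1 : |e| * (2 * R + 2) < 1 := by
    rw [he, abs_mul, abs_of_pos hq]
    rw [lt_div_iff₀ (by positivity)] at hcl
    linarith
  have hG : ∀ n : ℤ, ⌊(n : ℝ) * α⌋ = (n * p + ⌊(n : ℝ) * e⌋) / q := by
    intro n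
    have : (n : ℝ) * α = (((n * p : ℤ) : ℝ) + n * e) / (q : ℕ) := by
      rw [he]; push_cast; field_simp; ring
    rw [this, Int.floor_div_natCast, Int.floor_intCast_add]
  set a : ℤ := m - R with ha
  set b : ℤ := m + R + 1 with hb
  have hwin : ∀ n : ℤ, a ≤ n → n ≤ b → (a : ℝ) ≤ n ∧ ((n : ℝ) - a) * |e| < 1 := by
    intro n x y
    have x' : (a : ℝ) ≤ n := by exact_mod_cast x
    have y' : (n : ℝ) - a ≤ 2 * R + 2 := by
      have : n - a ≤ 2 * R + 2 := by omega
      exact_mod_cast this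
    have := abs_nonneg e
    exact ⟨x', by nlinarith⟩
  have fl1 := Int.floor_le ((a : ℝ) * e)
  have fl2 := Int.lt_floor_add_one ((a : ℝ) * e)
  have fin : ∀ i1 i2 s : ℤ, (∀ n, a ≤ n → n + 1 ≤ b →
      lam * ((⌊((n + 1 : ℤ) : ℝ) * α⌋ - ⌊(n : ℝ) * α⌋ : ℤ) : ℝ)
        = if n < s then cw lam p q i1 (n - s) else cw lam p q i2 (n - s)) →
      ∀ n, |n - m| ≤ R →
        pot lam α n = if n < s then cw lam p q i1 (n - s) else cw lam p q i2 (n - s) := by
    intro i1 i2 s hs n hn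
    rw [abs_le] at hn
    rw [pot_eq lam h0 h1, hs n (by omega) (by omega)]
  rcases lt_or_gt_of_ne he0 with hneg | hpos
  · obtain ⟨s, hs⟩ := loc_of_switch lam hq2 hc (fun n => ⌊(n : ℝ) * α⌋) a b
      (⌊((⌊(a : ℝ) * e⌋ : ℤ) : ℝ) / e⌋ + 1) ⌊(a : ℝ) * e⌋ 0 (-1) (Or.inr ⟨rfl, rfl⟩) (by
        intro n x y z
        obtain ⟨u, v⟩ := hwin n x y
        have z' : (n : ℝ) ≤ ((⌊(a : ℝ) * e⌋ : ℤ) : ℝ) / e := Int.le_floor.mp (by omega)
        rw [le_div_iff_of_neg hneg] at z'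
        rw [hG]
        congr 2
        rw [Int.floor_eq_iff]
        push_cast
        constructor <;> nlinarith) (by
        intro n x y z
        obtain ⟨u, v⟩ := hwin n x y
        have z' : ((⌊(a : ℝ) * e⌋ : ℤ) : ℝ) / e < n := Int.floor_lt.mp (by omega)
        rw [div_lt_iff_of_neg hneg] at z'
        rw [abs_of_neg hneg] at v
        rw [hG]
        congr 2
        rw [Int.floor_eq_iff]
        push_cast
        constructor <;> nlinarith)
    exact ⟨0, -1, s, Or.inr ⟨rfl, rfl⟩, fin _ _ _ hs⟩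
  · obtain ⟨s, hs⟩ := loc_of_switch lam hq2 hc (fun n => ⌊(n : ℝ) * α⌋) a b
      ⌈(((⌊(a : ℝ) * e⌋ : ℤ) : ℝ) + 1) / e⌉ (⌊(a : ℝ) * e⌋ + 1) (-1) 0 (Or.inl ⟨rfl, rfl⟩) (by
        intro n x y z
        obtain ⟨u, v⟩ := hwin n x y
        have z' : (n : ℝ) < (((⌊(a : ℝ) * e⌋ : ℤ) : ℝ) + 1) / e := Int.lt_ceil.mp z
        rw [lt_div_iff₀ hpos] at z'
        rw [hG]
        congr 2
        rw [Int.floor_eq_iff]
        push_cast
        constructor <;> nlinarith) (by
        intro n x y z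
        obtain ⟨u, v⟩ := hwin n x y
        have z' : (((⌊(a : ℝ) * e⌋ : ℤ) : ℝ) + 1) / e ≤ n := Int.ceil_le.mp z
        rw [div_le_iff₀ hpos] at z'
        rw [abs_of_pos hpos] at v
        rw [hG]
        congr 2
        rw [Int.floor_eq_iff]
        push_cast
        constructor <;> nlinarith)
    exact ⟨-1, 0, s, Or.inl ⟨rfl, rfl⟩, fin _ _ _ hs⟩

/-- The discriminant of the periodic approximant with frequency `p / q`. -/
noncomputable def xR (lam : ℝ) (p q : ℕ) : ℝ[X] := xP (fun n => cw lam p q (-1) n) q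

/-- The spectrum for a frequency close to `p / q` lies near the bands and the defect energies,
and it comes close to every point of the bands. -/
theorem approx_rat {lam : ℝ} (hlam : 0 < lam) {p q : ℕ} (hp : 0 < p) (hpq : p < q)
    (hc : Nat.Coprime p q) {δ : ℝ} (hδ : 0 < δ) :
    ∃ ρ > 0, ∀ α : ℝ, 0 < α → α < 1 → α ≠ p / q → |α - p / q| < ρ →
      ∀ H : L2 →L[ℂ] L2, IsSchr (pot lam α) H →
        (∀ E ∈ Spec H, ∃ E', (((xR lam p q).eval E') ^ 2 ≤ 4 ∨
          ((xR lam p q).eval E') ^ 2 = 4 + lam ^ 2) ∧ |E - E'| ≤ δ) ∧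
        (∀ E, ((xR lam p q).eval E) ^ 2 ≤ 4 → ∃ E' ∈ Spec H, |E' - E| ≤ δ) := by
  have hq2 : 2 ≤ q := by omega
  have M := model_cw hlam.le hp hpq hc
  set x : ℝ → ℝ := fun E => (xR lam p q).eval E with hx
  have hxc : Continuous x := (xR lam p q).continuous
  set Kδ : Set ℝ := Set.Icc (-(2 + lam)) (2 + lam) ∩
    ⋂ E' ∈ {E' | x E' ^ 2 ≤ 4 ∨ x E' ^ 2 = 4 + lam ^ 2}, {E | δ ≤ |E - E'|} with hK
  have hKc : IsCompact Kδ := by
    apply isCompact_Icc.inter_right
    apply isClosed_biInter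
    intro E' _
    exact isClosed_le continuous_const (by fun_prop)
  obtain ⟨η, hη, hηK⟩ := hKc.exists_forall_le'
    (f := fun E => min (|x E| - 2) |x E ^ 2 - 4 - lam ^ 2|) (a := 0) (by fun_prop) (by
      intro E hE
      have hE' : ¬ (x E ^ 2 ≤ 4 ∨ x E ^ 2 = 4 + lam ^ 2) := by
        intro h
        have := Set.mem_iInter₂.mp hE.2 E h
        simp only [sub_self, abs_zero, Set.mem_ofPred_eq] at this
        linarith
      push Not at hE'
      apply lt_min
      · have : |(2 : ℝ)| < |x E| := sq_lt_sq.mp (by linarith)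
        rw [abs_two] at this
        linarith
      · apply abs_pos.mpr
        intro h
        apply hE'.2
        linarith)
  obtain ⟨R, θ, hθ0, hθ1, hR⟩ := contr_model hlam.le hq2 hη
  obtain ⟨N, hN⟩ := exists_nat_ge (16 / δ ^ 2)
  rw [div_le_iff₀ (by positivity)] at hN
  refine ⟨min (1 / (q * (2 * R + 2))) (1 / (q * (2 * (N * q : ℕ) + 2))), by positivity, ?_⟩
  intro α h0 h1 hne hcl H hH
  have hV := abs_pot_le hlam.le α
  constructor
  · intro E hE
    by_contra hn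
    push Not at hn
    have hEK : E ∈ Kδ := ⟨abs_le.mp (abs_le_of_mem_Spec hV hH hE),
      Set.mem_iInter₂.mpr fun E' h => (hn E' h).le⟩
    have hm := hηK E hEK
    have m1 : 2 + η ≤ |x E| := by linarith [min_le_left (|x E| - 2) |x E ^ 2 - 4 - lam ^ 2|]
    have m2 : η ≤ |x E ^ 2 - 4 - lam ^ 2| := le_trans hm (min_le_right _ _)
    refine not_mem_Spec_of_contr hV hH hθ0 hθ1 (R := R) ?_ hE
    intro u hu m B hB
    obtain ⟨i1, i2, s, hi, hs⟩ := loc_pot lam hq2 hc R h0 h1 hne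
      (lt_of_lt_of_le hcl (min_le_left _ _)) m
    rcases hi with ⟨rfl, rfl⟩ | ⟨rfl, rfl⟩
    · exact hR _ _ M E (abs_le_of_mem_Spec hV hH hE) m1 m2 _ hV u hu m s B hs hB
    · exact hR _ _ M.symm E (abs_le_of_mem_Spec hV hH hE) (by rw [← M.tr]; exact m1)
        (by rw [← M.tr]; exact m2) _ hV u hu m s B hs hB
  · intro E hE
    obtain ⟨i1, i2, s, hi, hs⟩ := loc_pot lam hq2 hc (N * q) h0 h1 hne
      (lt_of_lt_of_le hcl (min_le_right _ _)) 0
    have hx1 : ∀ i : ℤ, (i = -1 ∨ i = 0) →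
        ((xP (fun n => cw lam p q i n) q).eval E) ^ 2 ≤ 4 := by
      rintro i (rfl | rfl)
      · exact hE
      · rw [← M.tr]; exact hE
    rcases le_or_gt s 0 with c | c
    · refine near_Spec_of_band hV hH (by omega) (cw_per lam p (by omega) i2) (N := N) (m0 := 0)
        (s := s) ?_ (hx1 i2 (by omega)) hδ hN
      intro n x y
      rw [hs n (by rw [abs_le]; omega), if_neg (by omega)]
    · refine near_Spec_of_band hV hH (by omega) (cw_per lam p (by omega) i1) (N := N)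
        (m0 := -((N * q : ℕ) : ℤ)) (s := s) ?_ (hx1 i1 (by omega)) hδ hN
      intro n x y
      rw [hs n (by rw [abs_le]; omega), if_pos (by omega)]

end Pool.Agent.Lib.MP_73239e_mp
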